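import Mathlib

set_option autoImplicit false

/-!
# Sums of three 3-powerful numbers in residue classes: definitions
-/

namespace Pool.Agent.helper62.PW

open Finset

/-- `m` is `r`-powerful -/
def Pf (r m : ℕ) : Prop := 0 < m ∧ ∀ p : ℕ, p.Prime → p ∣ m → p ^ r ∣ m

/-- the sums of at most `r` numbers which are `r`-powerful -/
def SumPf (r : ℕ) : Set ℕ :=
  {n | ∃ k : ℕ, k ≤ r ∧ ∃ f : Fin k → ℕ, (∀ i, Pf r (f i)) ∧ n = ∑ i, f i}

/-- the pair `(b, c)` stands for the core `(b + 1) ^ 4 * (c + 1) ^ 5` -/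
abbrev Core := ℕ × ℕ

/-- the value of a core -/
def cv (B : Core) : ℕ := (B.1 + 1) ^ 4 * (B.2 + 1) ^ 5

/-- the weight of a core: `cv B ^ (-1/3)` -/
noncomputable def wt (B : Core) : ℝ := (cv B : ℝ) ^ (-(1 / 3 : ℝ))

/-- the number of `x ≥ 1` with `x ^ 3 * cv B ≤ N` -/
noncomputable def Xr (N : ℕ) (B : Core) : ℕ := ⌊((N : ℝ) / cv B) ^ (1 / 3 : ℝ)⌋₊

/-- the number of `x`, `1 ≤ x i`, `x i ^ 3 * cv (t i) ≤ N`, such that the value of the form is
congruent to `n` modulo `M` -/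
noncomputable def box (M N n : ℕ) (t : Fin 3 → Core) : ℕ :=
  #{x ∈ Fintype.piFinset (fun i : Fin 3 => Icc 1 (Xr N (t i))) |
    (∑ i, cv (t i) * x i ^ 3) % M = n}

/-- the number of solutions of `∑ cv (t i) * r i ^ 3 = n` modulo `M` -/
noncomputable def loc (M n : ℕ) (t : Fin 3 → Core) : ℕ :=
  Nat.card {r : Fin 3 → ZMod M // ∑ i, (cv (t i) : ZMod M) * r i ^ 3 = (n : ZMod M)}

/-- the number of `x` modulo `p` such that `∑ B i * x i ^ 3` is not a cube -/
noncomputable def nc3 (p : ℕ) (B : Fin 3 → ZMod p) : ℕ :=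
  Nat.card {x : Fin 3 → ZMod p // ∀ w : ZMod p, w ^ 3 ≠ ∑ i, B i * x i ^ 3}

/-- the proportion of `x` modulo `p` such that the form with the coefficients `t` is not a cube -/
noncomputable def dl (p : ℕ) (t : Fin 3 → Core) : ℝ :=
  (nc3 p (fun i => (cv (t i) : ZMod p)) : ℝ) / (p : ℝ) ^ 3

/-- the proportion of the residue classes modulo `p` which are not cubes, for `p = 1` modulo `3` -/
noncomputable def d0 (p : ℕ) : ℝ := 2 / 3 * (1 - 1 / (p : ℝ))

/-- the primes `p ≡ 1` modulo `3` such that all primes `≤ Y` are cubes modulo `p` -/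
def QY (Y : ℕ) : Set ℕ :=
  {p | p.Prime ∧ p % 3 = 1 ∧ ∀ l : ℕ, l.Prime → l ≤ Y → ∃ x : ZMod p, x ^ 3 = (l : ZMod p)}

/-- the product of the primes in `P` -/
def MP (P : Finset ℕ) : ℕ := ∏ p ∈ P, p

/-- the residue classes modulo `MP P` which are not cubes modulo any `p ∈ P` -/
noncomputable def Om (P : Finset ℕ) : Finset ℕ := by
  classical
  exact (range (MP P)).filter fun n => ∀ p ∈ P, ∀ w : ZMod p, w ^ 3 ≠ (n : ZMod p)

/-- the majorant of the weighted local factors -/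
noncomputable def mj (B : Core) : ℝ :=
  2 ^ 64 * ((((B.1 + 1 : ℕ) : ℝ) * ((B.2 + 1 : ℕ) : ℝ)) ^ (1 / 6 : ℝ)) * wt B

end Pool.Agent.helper62.PW
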