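import Mathlib
import Pool.Agent.helper62.PW.Defs

set_option autoImplicit false

/-!
# PW-LocA: cubes modulo a prime `p ≡ 1` modulo `3`

`card_cube_roots`: the group `(ZMod p)ˣ` is cyclic of order `p - 1`, `3 ∣ p - 1`, so there is a
primitive cube root of unity `g`, and `w ^ 3 = c ^ 3` iff `w ∈ {c, g c, g ^ 2 c}` (`x ^ 3 - c ^ 3 =
(x - c) (x - g c) (x - g ^ 2 c)`). `card_noncube`: the map `w ↦ w ^ 3` on the `p - 1` nonzero
elements has fibres of size three over its image, so there are `(p - 1) / 3` nonzero cubes.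
`nc3_le`: for `n` in `ZMod p` let `c n = card {w | w ^ 3 = n}`: it is `3` for nonzero cubes, `1` for
`n = 0`, `0` otherwise; so `3 * [n is not a cube] + c n ≤ 3` for every `n`. Sum this over
`n = ∑ B i x i ^ 3`, `x : Fin 3 → ZMod p` (there are `p ^ 3` of them).
-/

namespace Pool.Agent.helper62.PW

open Finset

variable {p : ℕ} [Fact p.Prime]

/-- the number of solutions of `∑ B i * x i ^ 3 = w ^ 3` -/
noncomputable def V4 (p : ℕ) (B : Fin 3 → ZMod p) : ℕ :=
  Nat.card {z : (Fin 3 → ZMod p) × ZMod p // ∑ i, B i * z.1 i ^ 3 = z.2 ^ 3}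

private lemma exists_omega (hp : p % 3 = 1) : ∃ g : ZMod p, g ^ 3 = 1 ∧ g ≠ 1 := by
  have h3 : 3 ∣ Fintype.card (ZMod p)ˣ := by
    rw [ZMod.card_units]
    omega
  haveI : Fact (Nat.Prime 3) := ⟨Nat.prime_three⟩
  obtain ⟨u, hu⟩ := exists_prime_orderOf_dvd_card 3 h3
  refine ⟨(u : ZMod p), ?_, ?_⟩
  · have h1 := pow_orderOf_eq_one u
    rw [hu] at h1
    have h2 := congrArg (fun v : (ZMod p)ˣ => (v : ZMod p)) h1
    simpa using h2
  · intro h1
    have h2 : u = 1 := Units.ext h1
    rw [h2, orderOf_one] at hu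
    omega

private lemma card_roots' (hp : p % 3 = 1) {n : ZMod p} (hn : n ≠ 0) (h : ∃ c, c ^ 3 = n) :
    #{w : ZMod p | w ^ 3 = n} = 3 := by
  classical
  obtain ⟨c, rfl⟩ := h
  have hc : c ≠ 0 := by
    rintro rfl
    exact hn (by simp)
  obtain ⟨g, hg3, hg1⟩ := exists_omega hp
  have hg : g ^ 2 + g + 1 = 0 := by
    have h1 : (g - 1) * (g ^ 2 + g + 1) = 0 := by linear_combination hg3
    exact (mul_eq_zero.1 h1).resolve_left (sub_ne_zero.2 hg1)
  have hg0 : g ≠ 0 := by
    rintro rfl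
    simp at hg3
  have h1 : (univ.filter fun w : ZMod p => w ^ 3 = c ^ 3) = {c, g * c, g ^ 2 * c} := by
    ext w
    simp only [mem_filter, mem_univ, true_and, mem_insert, mem_singleton]
    constructor
    · intro hw
      have h2 : (w - c) * ((w - g * c) * (w - g ^ 2 * c)) = 0 := by
        linear_combination hw - c * w ^ 2 * hg + g * c ^ 2 * w * hg - c ^ 3 * hg3
      rcases mul_eq_zero.1 h2 with h3 | h3
      · exact Or.inl (sub_eq_zero.1 h3)
      · rcases mul_eq_zero.1 h3 with h4 | h4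
        · exact Or.inr (Or.inl (sub_eq_zero.1 h4))
        · exact Or.inr (Or.inr (sub_eq_zero.1 h4))
    · rintro (rfl | rfl | rfl)
      · rfl
      · rw [mul_pow, hg3, one_mul]
      · rw [mul_pow, ← pow_mul, mul_comm 2 3, pow_mul, hg3, one_pow, one_mul]
  rw [h1]
  have e1 : c ≠ g * c := by
    intro h2
    apply hg1
    have h3 : (g - 1) * c = 0 := by linear_combination -h2
    exact sub_eq_zero.1 ((mul_eq_zero.1 h3).resolve_right hc)
  have e2 : c ≠ g ^ 2 * c := by
    intro h2
    apply hg1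
    have h3 : (g ^ 2 - 1) * c = 0 := by linear_combination -h2
    have h4 : g ^ 2 = 1 := sub_eq_zero.1 ((mul_eq_zero.1 h3).resolve_right hc)
    calc g = g * 1 := (mul_one g).symm
      _ = g * g ^ 2 := by rw [h4]
      _ = g ^ 3 := by ring
      _ = 1 := hg3
  have e3 : g * c ≠ g ^ 2 * c := by
    intro h2
    apply hg1
    have h3 : (g - 1) * (g * c) = 0 := by linear_combination -h2
    exact sub_eq_zero.1 ((mul_eq_zero.1 h3).resolve_right (mul_ne_zero hg0 hc))
  rw [card_insert_of_notMem, card_insert_of_notMem, card_singleton]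
  · simpa using e3
  · simp only [mem_insert, mem_singleton, not_or]
    exact ⟨e1, e2⟩

private lemma key (hp : p % 3 = 1) (n : ZMod p) :
    #{w : ZMod p | w ^ 3 = n} + 3 * (if ∀ w : ZMod p, w ^ 3 ≠ n then 1 else 0) =
      if n = 0 then 1 else 3 := by
  classical
  by_cases hn : n = 0
  · subst hn
    rw [if_pos rfl, if_neg]
    · have h1 : (univ.filter fun w : ZMod p => w ^ 3 = 0) = {0} := by
        ext w
        simp
      rw [h1, card_singleton]
    · intro h
      exact h 0 (by simp)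
  · rw [if_neg hn]
    by_cases h : ∃ c : ZMod p, c ^ 3 = n
    · rw [card_roots' hp hn h, if_neg]
      push Not
      exact h
    · push Not at h
      rw [if_pos h]
      have h1 : (univ.filter fun w : ZMod p => w ^ 3 = n) = ∅ := by
        ext w
        simpa using h w
      rw [h1, card_empty]

theorem card_cube_roots (hp : p % 3 = 1) {n : ZMod p} (hn : n ≠ 0) (h : ∃ c, c ^ 3 = n) :
    Nat.card {w : ZMod p // w ^ 3 = n} = 3 := by
  classical
  rw [Nat.card_eq_fintype_card, Fintype.card_subtype]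
  exact card_roots' hp hn h

theorem card_noncube (hp : p % 3 = 1) :
    3 * Nat.card {n : ZMod p // ∀ w : ZMod p, w ^ 3 ≠ n} = 2 * (p - 1) := by
  classical
  rw [Nat.card_eq_fintype_card, Fintype.card_subtype, card_filter]
  have h1 : ∑ n : ZMod p, (#{w : ZMod p | w ^ 3 = n} +
      3 * (if ∀ w : ZMod p, w ^ 3 ≠ n then 1 else 0)) = ∑ n : ZMod p, if n = 0 then 1 else 3 :=
    sum_congr rfl fun n _ => key hp n
  rw [sum_add_distrib, ← mul_sum] at h1
  have h2 : ∑ n : ZMod p, #{w : ZMod p | w ^ 3 = n} = p := by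
    have h3 := card_eq_sum_card_fiberwise (s := (univ : Finset (ZMod p)))
      (t := (univ : Finset (ZMod p))) (f := fun w => w ^ 3) (by simp)
    rw [← h3, card_univ, ZMod.card]
  have h4 : ∑ n : ZMod p, (if n = 0 then 1 else 3) = 1 + 3 * (p - 1) := by
    have h5 : ∑ n : ZMod p, (if n = 0 then 1 else 3) = 
        ∑ n : ZMod p, (3 : ℕ) - 2 := by
      have h6 : ∑ n : ZMod p, ((if n = 0 then 1 else 3) + (if n = 0 then 2 else 0)) =
          ∑ n : ZMod p, (3 : ℕ) := sum_congr rfl fun n _ => by split_ifs <;> rfl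
      rw [sum_add_distrib, sum_ite_eq' univ (0 : ZMod p) (fun _ => 2), if_pos (mem_univ _)] at h6
      omega
    rw [h5, sum_const, card_univ, ZMod.card, smul_eq_mul]
    have := (Fact.out : p.Prime).two_le
    omega
  rw [h2, h4] at h1
  have := (Fact.out : p.Prime).two_le
  omega

theorem nc3_le (hp : p % 3 = 1) (B : Fin 3 → ZMod p) : 3 * nc3 p B + V4 p B ≤ 3 * p ^ 3 := by
  classical
  have h1 : nc3 p B = ∑ x : Fin 3 → ZMod p,
      (if ∀ w : ZMod p, w ^ 3 ≠ ∑ i, B i * x i ^ 3 then 1 else 0) := by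
    rw [nc3, Nat.card_eq_fintype_card, Fintype.card_subtype, card_filter]
  have h2 : V4 p B = ∑ x : Fin 3 → ZMod p, #{w : ZMod p | w ^ 3 = ∑ i, B i * x i ^ 3} := by
    rw [V4, Nat.card_eq_fintype_card, Fintype.card_subtype, card_filter, Fintype.sum_prod_type]
    refine sum_congr rfl fun x _ => ?_
    rw [card_filter]
    refine sum_congr rfl fun w _ => ?_
    simp only [eq_comm]
  rw [h1, h2, mul_sum, ← sum_add_distrib]
  have h3 : ∀ x : Fin 3 → ZMod p, 3 * (if ∀ w : ZMod p, w ^ 3 ≠ ∑ i, B i * x i ^ 3 then 1 else 0) +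
      #{w : ZMod p | w ^ 3 = ∑ i, B i * x i ^ 3} ≤ 3 := by
    intro x
    have := key hp (∑ i, B i * x i ^ 3)
    split_ifs at this ⊢ <;> omega
  refine (sum_le_sum fun x _ => h3 x).trans ?_
  rw [sum_const, card_univ, Fintype.card_fun, ZMod.card, Fintype.card_fin, smul_eq_mul, mul_comm]

end Pool.Agent.helper62.PW
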