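import Mathlib
import Pool.Agent.helper62.PW.LocA

set_option autoImplicit false

/-!
# PW-LocB: many solutions when all coefficients are cubes

PROOF. Substituting `x i ↦ c i * x i` one may assume that all `B i = 1` (bijection). Let
`r n = card {(x, y) | x ^ 3 + y ^ 3 = n}`. Since `x ^ 3 + y ^ 3 + z ^ 3 = w ^ 3` iff
`x ^ 3 + y ^ 3 = w ^ 3 + (-z) ^ 3`, the number of solutions is `∑ n, r n ^ 2`. Now
`∑ n, r n = p ^ 2` and `r 0 = 1 + 3 (p - 1) = 3 p - 2` (`x ^ 3 = (-y) ^ 3`, `card_cube_roots`), so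
`∑_{n ≠ 0} r n = p ^ 2 - 3 p + 2 = (p - 1) (p - 2)` and by Cauchy-Schwarz (`sq_sum_le_card_mul_sum_sq`,
over the `p - 1` nonzero `n`) `∑_{n ≠ 0} r n ^ 2 ≥ (p - 1) (p - 2) ^ 2`. In total at least
`(3 p - 2) ^ 2 + (p - 1) (p - 2) ^ 2 = p ^ 3 + 4 p ^ 2 - 4 p`.
-/

namespace Pool.Agent.helper62.PW

open Finset

variable {p : ℕ} [Fact p.Prime]

namespace LocB

/-- the number of representations as a sum of two cubes -/
def rr (p : ℕ) [Fact p.Prime] (n : ZMod p) : ℕ :=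
  #{a : ZMod p × ZMod p | a.1 ^ 3 + a.2 ^ 3 = n}

lemma row (hp : p % 3 = 1) (y : ZMod p) :
    (∑ x : ZMod p, if x ^ 3 + y ^ 3 = 0 then 1 else 0) = if y = 0 then 1 else 3 := by
  rw [← card_filter]
  have he : (univ.filter fun x : ZMod p => x ^ 3 + y ^ 3 = 0) =
      univ.filter fun x : ZMod p => x ^ 3 = (-y) ^ 3 := by
    apply filter_congr
    intro x _
    rw [Odd.neg_pow (by decide), eq_neg_iff_add_eq_zero]
  rw [he]
  by_cases hy : y = 0
  · rw [if_pos hy, hy]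
    have : (univ.filter fun x : ZMod p => x ^ 3 = (-0) ^ 3) = {0} := by
      ext x
      simp
    rw [this, card_singleton]
  · rw [if_neg hy]
    have h := card_cube_roots hp (n := (-y) ^ 3) (pow_ne_zero _ (neg_ne_zero.2 hy)) ⟨-y, rfl⟩
    rw [Nat.card_eq_fintype_card, Fintype.card_subtype] at h
    exact h

lemma rr_zero (hp : p % 3 = 1) : rr p 0 + 2 = 3 * p := by
  have h1 : rr p 0 = ∑ y : ZMod p, if y = 0 then 1 else 3 := by
    rw [rr, card_filter, Fintype.sum_prod_type_right]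
    exact sum_congr rfl fun y _ => row hp y
  have h2 : ∑ y : ZMod p, (if y = 0 then 1 else 3) + ∑ y : ZMod p, (if y = 0 then 2 else 0) =
      ∑ y : ZMod p, 3 := by
    rw [← sum_add_distrib]
    refine sum_congr rfl fun y _ => ?_
    split_ifs <;> rfl
  rw [h1]
  rw [Finset.sum_ite_eq' univ (0 : ZMod p) fun _ => 2, if_pos (mem_univ _), sum_const,
    card_univ, ZMod.card, smul_eq_mul, mul_comm p 3] at h2
  exact h2

lemma sum_rr : ∑ n : ZMod p, rr p n = p ^ 2 := by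
  have h := card_eq_sum_card_fiberwise (s := (univ : Finset (ZMod p × ZMod p)))
    (t := (univ : Finset (ZMod p))) (f := fun a => a.1 ^ 3 + a.2 ^ 3) (fun _ _ => mem_univ _)
  rw [card_univ, Fintype.card_prod, ZMod.card] at h
  rw [pow_two, h]
  rfl

lemma card_pairs : #{a : (ZMod p × ZMod p) × (ZMod p × ZMod p) |
    a.1.1 ^ 3 + a.1.2 ^ 3 = a.2.1 ^ 3 + a.2.2 ^ 3} = ∑ n : ZMod p, rr p n ^ 2 := by
  have h := card_eq_sum_card_fiberwise
    (s := univ.filter fun a : (ZMod p × ZMod p) × (ZMod p × ZMod p) =>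
      a.1.1 ^ 3 + a.1.2 ^ 3 = a.2.1 ^ 3 + a.2.2 ^ 3)
    (t := (univ : Finset (ZMod p))) (f := fun a => a.1.1 ^ 3 + a.1.2 ^ 3)
    (fun _ _ => mem_univ _)
  rw [h]
  refine sum_congr rfl fun n _ => ?_
  rw [pow_two, rr, ← card_product]
  congr 1
  ext a
  simp only [mem_filter, mem_univ, true_and, mem_product]
  constructor
  · rintro ⟨h1, h2⟩
    exact ⟨h2, by rw [← h1, h2]⟩
  · rintro ⟨h1, h2⟩
    exact ⟨by rw [h1, h2], h1⟩

lemma pairs_ge (hp : p % 3 = 1) : p ^ 3 + 4 * p ^ 2 ≤ ∑ n : ZMod p, rr p n ^ 2 + 4 * p := by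
  have hpos : 1 ≤ p := (Fact.out : p.Prime).one_lt.le
  have h0 := rr_zero hp
  have h1 := sum_rr (p := p)
  have e1 := sum_erase_add univ (rr p) (mem_univ (0 : ZMod p))
  have e2 := sum_erase_add univ (fun n => rr p n ^ 2) (mem_univ (0 : ZMod p))
  have hc := sq_sum_le_card_mul_sum_sq (s := univ.erase (0 : ZMod p)) (f := rr p)
  rw [card_erase_of_mem (mem_univ _), card_univ, ZMod.card] at hc
  generalize (∑ n ∈ univ.erase (0 : ZMod p), rr p n) = S at e1 hc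
  generalize (∑ n ∈ univ.erase (0 : ZMod p), rr p n ^ 2) = Q at e2 hc
  generalize (∑ n : ZMod p, rr p n ^ 2) = T at e2 ⊢
  generalize rr p 0 = r at e1 e2 h0
  rw [h1] at e1
  obtain ⟨q, rfl⟩ : ∃ q, p = q + 1 := ⟨p - 1, by omega⟩
  rw [Nat.add_sub_cancel] at hc
  have hq : 1 ≤ q := by
    rcases Nat.eq_zero_or_pos q with h | h
    · subst h
      exact absurd (Fact.out : (0 + 1).Prime) (by decide)
    · exact h
  have hqz : (1 : ℤ) ≤ q := by exact_mod_cast hq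
  zify at *
  have hr : (r : ℤ) = 3 * q + 1 := by linarith
  have hS : (S : ℤ) = q * (q - 1) := by
    rw [hr] at e1
    linarith
  have hQ : (q : ℤ) * (q - 1) ^ 2 ≤ Q := by
    have h2 : (q : ℤ) * (q * (q - 1) ^ 2) ≤ q * Q := by
      calc (q : ℤ) * (q * (q - 1) ^ 2) = (S : ℤ) ^ 2 := by rw [hS]; ring
        _ ≤ _ := hc
    exact le_of_mul_le_mul_left h2 (by linarith)
  rw [← e2, hr]
  nlinarith [hQ]

end LocB

theorem V4_cube (hp : p % 3 = 1) {B : Fin 3 → ZMod p} (hB : ∀ i, B i ≠ 0 ∧ ∃ c, c ^ 3 = B i) :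
    p ^ 3 + 4 * p ^ 2 ≤ V4 p B + 4 * p := by
  refine (LocB.pairs_ge hp).trans (Nat.add_le_add_right ?_ _)
  rw [← LocB.card_pairs, ← Fintype.card_subtype, ← Nat.card_eq_fintype_card, V4]
  choose hB0 c hc using hB
  have hc0 : ∀ i, c i ≠ 0 := by
    intro i h
    apply hB0 i
    rw [← hc i, h, zero_pow (by norm_num)]
  refine Nat.card_le_card_of_injective
    (fun a => (⟨(![a.1.1.1 / c 0, a.1.1.2 / c 1, -a.1.2.2 / c 2], a.1.2.1), ?_⟩ :
      {z : (Fin 3 → ZMod p) × ZMod p // ∑ i, B i * z.1 i ^ 3 = z.2 ^ 3})) ?_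
  · have h := a.2
    rw [Fin.sum_univ_three]
    change B 0 * (a.1.1.1 / c 0) ^ 3 + B 1 * (a.1.1.2 / c 1) ^ 3 + B 2 * (-a.1.2.2 / c 2) ^ 3 =
      a.1.2.1 ^ 3
    rw [← hc 0, ← hc 1, ← hc 2, div_pow, div_pow, div_pow,
      mul_div_cancel₀ _ (pow_ne_zero 3 (hc0 0)), mul_div_cancel₀ _ (pow_ne_zero 3 (hc0 1)),
      mul_div_cancel₀ _ (pow_ne_zero 3 (hc0 2)), h]
    ring
  · intro a b hab
    have h1 := congrArg (fun z => z.1.1 0) hab
    have h2 := congrArg (fun z => z.1.1 1) hab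
    have h3 := congrArg (fun z => z.1.1 2) hab
    have h4 := congrArg (fun z => z.1.2) hab
    change a.1.1.1 / c 0 = b.1.1.1 / c 0 at h1
    change a.1.1.2 / c 1 = b.1.1.2 / c 1 at h2
    change -a.1.2.2 / c 2 = -b.1.2.2 / c 2 at h3
    change a.1.2.1 = b.1.2.1 at h4
    apply Subtype.ext
    refine Prod.ext (Prod.ext ((div_left_inj' (hc0 0)).1 h1) ((div_left_inj' (hc0 1)).1 h2))
      (Prod.ext h4 (neg_injective ((div_left_inj' (hc0 2)).1 h3)))

end Pool.Agent.helper62.PW
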