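import Mathlib
import Pool.Agent.helper62.PW.LocA

set_option autoImplicit false

/-!
# PW-LocC: the number of solutions for arbitrary nonzero coefficients

PROOF (elementary Fourier analysis on `ZMod p`). Let `ψ = ZMod.stdAddChar` (a primitive additive
character with values in `ℂ`), `S t = ∑ x, ψ (t * x ^ 3)`.
(1) `∑ t, ‖S t‖ ^ 2 = p * card {(x, y) | x ^ 3 = y ^ 3} = p * (1 + 3 (p - 1))` (orthogonality,
`card_cube_roots`); the term `t = 0` is `p ^ 2`, so `∑_{t ≠ 0} ‖S t‖ ^ 2 = 2 p (p - 1)`.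
(2) `S (t * c ^ 3) = S t` for `c ≠ 0` (substitution `x ↦ c x`). So for `t ≠ 0`
`(p - 1) ‖S t‖ ^ 2 = ∑_{c ≠ 0} ‖S (t c ^ 3)‖ ^ 2 ≤ 3 ∑_{s ≠ 0} ‖S s‖ ^ 2 = 6 p (p - 1)`, since each `s`
is `t c ^ 3` for at most three `c`. Hence `‖S t‖ ^ 2 ≤ 6 p`.
(3) `p * V4 p B = ∑ t, S (B 0 t) S (B 1 t) S (B 2 t) S (-t)` (orthogonality). The term `t = 0` is
`p ^ 4`, the others have norm at most `(6 p) ^ 2 = 36 p ^ 2`, so
`|p V4 - p ^ 4| ≤ 36 p ^ 2 (p - 1)`, and `V4 ≥ p ^ 3 - 36 p ^ 2`.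
-/

namespace Pool.Agent.helper62.PW

open Finset

variable {p : ℕ} [Fact p.Prime]

/-- the cubic exponential sum -/
private noncomputable def locS (p : ℕ) [Fact p.Prime] (t : ZMod p) : ℂ :=
  ∑ x : ZMod p, (ZMod.stdAddChar (t * x ^ 3) : ℂ)

private lemma locC_orth (a : ZMod p) :
    ∑ t : ZMod p, (ZMod.stdAddChar (t * a) : ℂ) = if a = 0 then (p : ℂ) else 0 := by
  have h := AddChar.sum_mulShift (R := ZMod p) (R' := ℂ) (ψ := ZMod.stdAddChar) a
    (ZMod.isPrimitive_stdAddChar p)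
  rw [h, ZMod.card]
  split <;> simp

private lemma locC_norm (t : ZMod p) :
    ((‖locS p t‖ ^ 2 : ℝ) : ℂ) =
      ∑ x : ZMod p, ∑ y : ZMod p, (ZMod.stdAddChar (t * (x ^ 3 - y ^ 3)) : ℂ) := by
  rw [Complex.ofReal_pow, ← Complex.mul_conj', locS, map_sum, Finset.sum_mul_sum]
  refine Finset.sum_congr rfl fun x _ => Finset.sum_congr rfl fun y _ => ?_
  rw [← AddChar.map_neg_eq_conj, ← AddChar.map_add_eq_mul]
  congr 1
  ring

private lemma locC_zero : locS p 0 = p := by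
  simp [locS, ZMod.card]

private lemma locC_fib (hp : p % 3 = 1) (x : ZMod p) :
    ∑ y : ZMod p, (if x ^ 3 - y ^ 3 = 0 then (p : ℂ) else 0) =
      p * (if x = 0 then 1 else 3) := by
  rw [Finset.sum_ite, Finset.sum_const_zero, add_zero, Finset.sum_const, nsmul_eq_mul, mul_comm]
  congr 1
  split_ifs with hx
  · subst hx
    have : (Finset.univ.filter fun y : ZMod p => (0 : ZMod p) ^ 3 - y ^ 3 = 0) = {0} := by
      ext y
      simp
    rw [this]
    simp
  · have h3 := card_cube_roots (p := p) hp (n := x ^ 3) (pow_ne_zero 3 hx) ⟨x, rfl⟩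
    rw [Nat.card_eq_fintype_card, Fintype.card_subtype] at h3
    have : (Finset.univ.filter fun y : ZMod p => x ^ 3 - y ^ 3 = 0) =
        Finset.univ.filter fun w : ZMod p => w ^ 3 = x ^ 3 := by
      ext y
      simp only [Finset.mem_filter, Finset.mem_univ, true_and]
      rw [sub_eq_zero]
      exact eq_comm
    rw [this, h3]
    norm_num

private lemma locC_total (hp : p % 3 = 1) :
    ∑ t : ZMod p, ‖locS p t‖ ^ 2 = p * (1 + 3 * ((p : ℝ) - 1)) := by
  have h : ((∑ t : ZMod p, ‖locS p t‖ ^ 2 : ℝ) : ℂ) = ((p * (1 + 3 * ((p : ℝ) - 1)) : ℝ) : ℂ) := by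
    rw [Complex.ofReal_sum]
    have e : ∀ t : ZMod p, ((‖locS p t‖ ^ 2 : ℝ) : ℂ) =
      ∑ x : ZMod p, ∑ y : ZMod p, (ZMod.stdAddChar (t * (x ^ 3 - y ^ 3)) : ℂ) :=
      fun t => locC_norm t
    rw [Finset.sum_congr rfl fun t _ => e t, Finset.sum_comm]
    have e2 : ∀ x : ZMod p, ∑ t : ZMod p, ∑ y : ZMod p,
        (ZMod.stdAddChar (t * (x ^ 3 - y ^ 3)) : ℂ) = p * (if x = 0 then 1 else 3) := by
      intro x
      rw [Finset.sum_comm, ← locC_fib hp x]
      exact Finset.sum_congr rfl fun y _ => locC_orth _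
    rw [Finset.sum_congr rfl fun x _ => e2 x, ← Finset.mul_sum,
      ← Finset.add_sum_erase _ _ (Finset.mem_univ (0 : ZMod p)), if_pos rfl]
    have e3 : ∑ x ∈ (Finset.univ : Finset (ZMod p)).erase 0, (if x = 0 then (1 : ℂ) else 3) =
        3 * ((p : ℂ) - 1) := by
      rw [Finset.sum_congr rfl (g := fun _ => (3 : ℂ))
        (fun x hx => if_neg (Finset.ne_of_mem_erase hx)), Finset.sum_const,
        Finset.card_erase_of_mem (Finset.mem_univ _), Finset.card_univ, ZMod.card, nsmul_eq_mul,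
        Nat.cast_sub (Fact.out : p.Prime).one_le]
      push_cast
      ring
    rw [e3]
    push_cast
    ring
  exact_mod_cast h

private lemma locC_erase (hp : p % 3 = 1) :
    ∑ t ∈ (Finset.univ : Finset (ZMod p)).erase 0, ‖locS p t‖ ^ 2 = 2 * p * ((p : ℝ) - 1) := by
  have h := locC_total (p := p) hp
  rw [← Finset.add_sum_erase _ _ (Finset.mem_univ (0 : ZMod p)), locC_zero] at h
  rw [Complex.norm_natCast] at h
  linarith

private lemma locC_sub {c : ZMod p} (hc : c ≠ 0) (t : ZMod p) :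
    locS p (t * c ^ 3) = locS p t := by
  rw [locS, locS]
  refine Fintype.sum_equiv (Equiv.mulLeft₀ c hc) _ _ fun x => ?_
  congr 1
  change t * c ^ 3 * x ^ 3 = t * (c * x) ^ 3
  ring

private lemma locC_bound (hp : p % 3 = 1) {t : ZMod p} (ht : t ≠ 0) :
    ‖locS p t‖ ^ 2 ≤ 6 * p := by
  set T := (Finset.univ : Finset (ZMod p)).erase 0 with hT
  have hmem : ∀ c, c ∈ T ↔ c ≠ 0 := by
    intro c
    simp [hT]
  have hcard : T.card = p - 1 := by
    rw [hT, Finset.card_erase_of_mem (Finset.mem_univ _), Finset.card_univ, ZMod.card]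
  have h1 : ∑ c ∈ T, ‖locS p (t * c ^ 3)‖ ^ 2 = ((p : ℝ) - 1) * ‖locS p t‖ ^ 2 := by
    rw [Finset.sum_congr rfl (g := fun _ => ‖locS p t‖ ^ 2)
      (fun c hc => by rw [locC_sub ((hmem c).1 hc)]), Finset.sum_const, hcard, nsmul_eq_mul,
      Nat.cast_sub (Fact.out : p.Prime).one_le]
    push_cast
    ring
  have h2 : ∑ c ∈ T, ‖locS p (t * c ^ 3)‖ ^ 2 ≤ ∑ s ∈ T, 3 * ‖locS p s‖ ^ 2 := by
    rw [← Finset.sum_fiberwise_of_maps_to (s := T) (t := T) (g := fun c => t * c ^ 3)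
      (fun c hc => (hmem _).2 (mul_ne_zero ht (pow_ne_zero 3 ((hmem c).1 hc))))]
    refine Finset.sum_le_sum fun s hs => ?_
    rw [Finset.sum_congr rfl (g := fun _ => ‖locS p s‖ ^ 2)
      (fun c hc => by rw [(Finset.mem_filter.1 hc).2]), Finset.sum_const, nsmul_eq_mul]
    refine mul_le_mul_of_nonneg_right ?_ (by positivity)
    by_cases hne : (T.filter fun c => t * c ^ 3 = s).Nonempty
    · obtain ⟨c0, hc0⟩ := hne
      have hc0' := Finset.mem_filter.1 hc0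
      have h3 := card_cube_roots (p := p) hp (n := c0 ^ 3)
        (pow_ne_zero 3 ((hmem _).1 hc0'.1)) ⟨c0, rfl⟩
      rw [Nat.card_eq_fintype_card, Fintype.card_subtype] at h3
      have h4 : (T.filter fun c => t * c ^ 3 = s).card ≤ 3 := by
        refine (Finset.card_le_card fun c hc => ?_).trans h3.le
        have hc' := (Finset.mem_filter.1 hc).2
        rw [Finset.mem_filter]
        refine ⟨Finset.mem_univ _, ?_⟩
        exact mul_left_cancel₀ ht (hc'.trans hc0'.2.symm)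
      exact_mod_cast h4
    · rw [Finset.not_nonempty_iff_eq_empty.1 hne]
      simp
  rw [h1, ← Finset.mul_sum, locC_erase hp] at h2
  have hp1 : (0 : ℝ) < (p : ℝ) - 1 := by
    have : (1 : ℝ) < p := by exact_mod_cast (Fact.out : p.Prime).one_lt
    linarith
  have h3 : ((p : ℝ) - 1) * ‖locS p t‖ ^ 2 ≤ ((p : ℝ) - 1) * (6 * p) := by
    calc _ ≤ _ := h2
      _ = _ := by ring
  exact le_of_mul_le_mul_left h3 hp1

private lemma locC_V4 (B : Fin 3 → ZMod p) :
    (p : ℂ) * (V4 p B : ℂ) =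
      ∑ t : ZMod p, (∏ i, locS p (t * B i)) * locS p (-t) := by
  classical
  have h1 : (V4 p B : ℂ) = ∑ z : (Fin 3 → ZMod p) × ZMod p,
      if (∑ i, B i * z.1 i ^ 3) - z.2 ^ 3 = 0 then (1 : ℂ) else 0 := by
    rw [V4, Nat.card_eq_fintype_card, Fintype.card_subtype, Finset.sum_boole]
    congr 2
    ext z
    simp only [Finset.mem_filter, Finset.mem_univ, true_and, sub_eq_zero]
  have h2 : (p : ℂ) * (V4 p B : ℂ) = ∑ z : (Fin 3 → ZMod p) × ZMod p, ∑ t : ZMod p,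
      (ZMod.stdAddChar (t * ((∑ i, B i * z.1 i ^ 3) - z.2 ^ 3)) : ℂ) := by
    rw [h1, Finset.mul_sum]
    refine Finset.sum_congr rfl fun z _ => ?_
    rw [locC_orth]
    split <;> simp
  rw [h2, Finset.sum_comm]
  refine Finset.sum_congr rfl fun t _ => ?_
  rw [Fintype.sum_prod_type]
  have h3 : ∀ x : Fin 3 → ZMod p, ∀ w : ZMod p,
      (ZMod.stdAddChar (t * ((∑ i, B i * x i ^ 3) - w ^ 3)) : ℂ) =
      (∏ i, (ZMod.stdAddChar (t * B i * x i ^ 3) : ℂ)) * ZMod.stdAddChar (-t * w ^ 3) := by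
    intro x w
    rw [Fin.prod_univ_three, ← AddChar.map_add_eq_mul, ← AddChar.map_add_eq_mul,
      ← AddChar.map_add_eq_mul, Fin.sum_univ_three]
    congr 1
    ring
  simp_rw [h3]
  have h4 : (∏ i, locS p (t * B i)) =
      ∑ x : Fin 3 → ZMod p, ∏ i, (ZMod.stdAddChar (t * B i * x i ^ 3) : ℂ) := by
    simp only [locS]
    rw [Finset.prod_univ_sum, Fintype.piFinset_univ]
  rw [h4, Finset.sum_mul]
  refine Finset.sum_congr rfl fun x _ => ?_
  rw [← Finset.mul_sum]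
  rfl

theorem V4_gen (hp : p % 3 = 1) {B : Fin 3 → ZMod p} (hB : ∀ i, B i ≠ 0) :
    p ^ 3 ≤ V4 p B + 36 * p ^ 2 := by
  have hp0 : (0 : ℝ) < p := by exact_mod_cast (Fact.out : p.Prime).pos
  have hp1 : (1 : ℝ) < p := by exact_mod_cast (Fact.out : p.Prime).one_lt
  have h := locC_V4 (p := p) B
  rw [← Finset.add_sum_erase _ _ (Finset.mem_univ (0 : ZMod p))] at h
  have h0 : (∏ i, locS p (0 * B i)) * locS p (-0) = (p : ℂ) ^ 4 := by
    simp only [zero_mul, neg_zero, locC_zero, Fin.prod_univ_three]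
    ring
  rw [h0] at h
  set E : ℂ := ∑ t ∈ (Finset.univ : Finset (ZMod p)).erase 0,
    (∏ i, locS p (t * B i)) * locS p (-t) with hE
  have hEn : ‖E‖ ≤ ((p : ℝ) - 1) * (36 * p ^ 2) := by
    have h1 : ∀ t ∈ (Finset.univ : Finset (ZMod p)).erase 0,
        ‖(∏ i, locS p (t * B i)) * locS p (-t)‖ ≤ 36 * (p : ℝ) ^ 2 := by
      intro t ht
      have ht0 : t ≠ 0 := Finset.ne_of_mem_erase ht
      have a0 := locC_bound hp (mul_ne_zero ht0 (hB 0))
      have a1 := locC_bound hp (mul_ne_zero ht0 (hB 1))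
      have a2 := locC_bound hp (mul_ne_zero ht0 (hB 2))
      have a3 := locC_bound hp (neg_ne_zero.2 ht0)
      rw [Fin.prod_univ_three, norm_mul, norm_mul, norm_mul]
      set n0 := ‖locS p (t * B 0)‖
      set n1 := ‖locS p (t * B 1)‖
      set n2 := ‖locS p (t * B 2)‖
      set n3 := ‖locS p (-t)‖
      have b0 : 0 ≤ n0 := norm_nonneg _
      have b1 : 0 ≤ n1 := norm_nonneg _
      have b2 : 0 ≤ n2 := norm_nonneg _
      have b3 : 0 ≤ n3 := norm_nonneg _
      have c1 : n0 * n1 ≤ 6 * p := by nlinarith [sq_nonneg (n0 - n1)]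
      have c2 : n2 * n3 ≤ 6 * p := by nlinarith [sq_nonneg (n2 - n3)]
      calc n0 * n1 * n2 * n3 = (n0 * n1) * (n2 * n3) := by ring
        _ ≤ (6 * p) * (6 * p) := mul_le_mul c1 c2 (mul_nonneg b2 b3) (by positivity)
        _ = 36 * (p : ℝ) ^ 2 := by ring
    calc ‖E‖ ≤ _ := norm_sum_le_of_le _ h1
      _ = ((p : ℝ) - 1) * (36 * p ^ 2) := by
        rw [Finset.sum_const, Finset.card_erase_of_mem (Finset.mem_univ _), Finset.card_univ,
          ZMod.card, nsmul_eq_mul, Nat.cast_sub (Fact.out : p.Prime).one_le]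
        push_cast
        ring
  have hre := congrArg Complex.re h
  have hre2 : (p : ℝ) * (V4 p B : ℝ) = (p : ℝ) ^ 4 + E.re := by
    have e1 : ((p : ℂ) * (V4 p B : ℂ)).re = (p : ℝ) * (V4 p B : ℝ) := by
      have : ((p : ℂ) * (V4 p B : ℂ)) = (((p : ℝ) * (V4 p B : ℝ) : ℝ) : ℂ) := by push_cast; rfl
      rw [this, Complex.ofReal_re]
    have e2 : ((p : ℂ) ^ 4).re = (p : ℝ) ^ 4 := by
      have : ((p : ℂ) ^ 4) = (((p : ℝ) ^ 4 : ℝ) : ℂ) := by push_cast; rfl
      rw [this, Complex.ofReal_re]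
    rw [e1, Complex.add_re, e2] at hre
    exact hre
  have hEre : -(((p : ℝ) - 1) * (36 * p ^ 2)) ≤ E.re := by
    have := (abs_le.1 ((Complex.abs_re_le_norm E).trans hEn)).1
    exact this
  have hfin : (p : ℝ) * (p : ℝ) ^ 3 ≤ (p : ℝ) * ((V4 p B : ℝ) + 36 * (p : ℝ) ^ 2) := by
    nlinarith [sq_nonneg (p : ℝ)]
  have := le_of_mul_le_mul_left hfin hp0
  exact_mod_cast this

end Pool.Agent.helper62.PW
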