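import Mathlib
import Pool.Agent.helper62.PW.LocB
import Pool.Agent.helper62.PW.LocC

set_option autoImplicit false

/-!
# PW-LocD: the local factors

PROOFS. `3 nc3 ≤ 3 p ^ 3 - V4` (`nc3_le`). Cubes: `3 nc3 ≤ 2 p ^ 3 - 4 p ^ 2 + 4 p`, so
`dl / d0 = 3 nc3 / (2 p ^ 2 (p - 1)) ≤ (p ^ 2 - 2 p + 2) / (p (p - 1)) = 1 - (p - 2) / (p (p - 1)) ≤
1 - 1 / (2 p) ≤ exp (- 1 / (2 p))` (`p ≥ 7`). General: `3 nc3 ≤ 2 p ^ 3 + 36 p ^ 2`, `dl / d0 ≤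
(p + 18) / (p - 1) = 1 + 19 / (p - 1) ≤ 1 + 38 / p ≤ exp (38 / p)`. Always: `nc3 ≤ p ^ 3`, `dl ≤ 1 ≤
2 d0`, as `2 d0 = (4 / 3) (1 - 1 / p) ≥ (4 / 3) (6 / 7) > 1`.
-/

namespace Pool.Agent.helper62.PW

open Finset

lemma p_ge {p : ℕ} (hp : p.Prime) (h3 : p % 3 = 1) : (4 : ℝ) ≤ p := by
  have h1 := hp.one_lt
  have h2 : 4 ≤ p := by omega
  exact_mod_cast h2

theorem d0_pos {p : ℕ} (hp : p.Prime) : 0 < d0 p := by
  have h1 : (1 : ℝ) < p := by exact_mod_cast hp.one_lt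
  have h2 : 1 / (p : ℝ) < 1 := by
    rw [div_lt_one (by linarith)]
    exact h1
  rw [d0]
  linarith

theorem dl_nonneg (p : ℕ) (t : Fin 3 → Core) : 0 ≤ dl p t := by
  rw [dl]
  positivity

lemma dl_le_of {p : ℕ} (hp : p.Prime) {t : Fin 3 → Core} {c y : ℝ}
    (h : 3 * (nc3 p (fun i => (cv (t i) : ZMod p)) : ℝ) ≤ c * (p : ℝ) ^ 3)
    (hc : c ≤ 2 * (1 - 1 / (p : ℝ)) * y) : dl p t ≤ d0 p * y := by
  have h1 : (0 : ℝ) < (p : ℝ) ^ 3 := by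
    have : (0 : ℝ) < p := by exact_mod_cast hp.pos
    positivity
  have h2 : dl p t ≤ c / 3 := by
    rw [dl, div_le_iff₀ h1]
    linarith
  rw [d0]
  linarith

theorem dl_le_cube {p : ℕ} (hp : p.Prime) (h3 : p % 3 = 1) {t : Fin 3 → Core}
    (ht : ∀ i, (cv (t i) : ZMod p) ≠ 0 ∧ ∃ c : ZMod p, c ^ 3 = (cv (t i) : ZMod p)) :
    dl p t ≤ d0 p * Real.exp (-(1 / (2 * (p : ℝ)))) := by
  have : Fact p.Prime := ⟨hp⟩
  have hp4 := p_ge hp h3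
  have h1 := nc3_le h3 fun i => (cv (t i) : ZMod p)
  have h2 := V4_cube h3 ht
  have h1' : 3 * (nc3 p (fun i => (cv (t i) : ZMod p)) : ℝ) +
      (V4 p (fun i => (cv (t i) : ZMod p)) : ℝ) ≤ 3 * (p : ℝ) ^ 3 := by exact_mod_cast h1
  have h2' : (p : ℝ) ^ 3 + 4 * (p : ℝ) ^ 2 ≤
      (V4 p (fun i => (cv (t i) : ZMod p)) : ℝ) + 4 * (p : ℝ) := by exact_mod_cast h2
  have hp0 : (0 : ℝ) < p := by linarith
  refine (dl_le_of (c := 2 - 4 / p + 4 / (p : ℝ) ^ 2) (y := 1 - 1 / (2 * (p : ℝ))) hp ?_ ?_).trans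
    (mul_le_mul_of_nonneg_left ?_ (d0_pos hp).le)
  · have : (2 - 4 / p + 4 / (p : ℝ) ^ 2) * (p : ℝ) ^ 3 =
        2 * (p : ℝ) ^ 3 - 4 * (p : ℝ) ^ 2 + 4 * p := by
      field_simp
    rw [this]
    linarith
  · have e : 2 * (1 - 1 / (p : ℝ)) * (1 - 1 / (2 * (p : ℝ))) - (2 - 4 / p + 4 / (p : ℝ) ^ 2) =
        ((p : ℝ) - 3) / (p : ℝ) ^ 2 := by
      field_simp
      ring
    have : 0 ≤ ((p : ℝ) - 3) / (p : ℝ) ^ 2 := div_nonneg (by linarith) (by positivity)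
    linarith
  · have := Real.add_one_le_exp (-(1 / (2 * (p : ℝ))))
    linarith

theorem dl_le_gen {p : ℕ} (hp : p.Prime) (h3 : p % 3 = 1) {t : Fin 3 → Core}
    (ht : ∀ i, (cv (t i) : ZMod p) ≠ 0) : dl p t ≤ d0 p * Real.exp (38 / (p : ℝ)) := by
  have : Fact p.Prime := ⟨hp⟩
  have hp4 := p_ge hp h3
  have h1 := nc3_le h3 fun i => (cv (t i) : ZMod p)
  have h2 := V4_gen h3 ht
  have h1' : 3 * (nc3 p (fun i => (cv (t i) : ZMod p)) : ℝ) +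
      (V4 p (fun i => (cv (t i) : ZMod p)) : ℝ) ≤ 3 * (p : ℝ) ^ 3 := by exact_mod_cast h1
  have h2' : (p : ℝ) ^ 3 ≤ (V4 p (fun i => (cv (t i) : ZMod p)) : ℝ) + 36 * (p : ℝ) ^ 2 := by
    exact_mod_cast h2
  have hp0 : (0 : ℝ) < p := by linarith
  refine (dl_le_of (c := 2 + 36 / p) (y := 1 + 38 / (p : ℝ)) hp ?_ ?_).trans
    (mul_le_mul_of_nonneg_left ?_ (d0_pos hp).le)
  · have : (2 + 36 / (p : ℝ)) * (p : ℝ) ^ 3 = 2 * (p : ℝ) ^ 3 + 36 * (p : ℝ) ^ 2 := by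
      field_simp
    rw [this]
    linarith
  · have e : 2 * (1 - 1 / (p : ℝ)) * (1 + 38 / (p : ℝ)) - (2 + 36 / p) =
        38 * ((p : ℝ) - 2) / (p : ℝ) ^ 2 := by
      field_simp
      ring
    have : 0 ≤ 38 * ((p : ℝ) - 2) / (p : ℝ) ^ 2 := div_nonneg (by linarith) (by positivity)
    linarith
  · have := Real.add_one_le_exp (38 / (p : ℝ))
    linarith

theorem dl_le_any {p : ℕ} (hp : p.Prime) (h3 : p % 3 = 1) (t : Fin 3 → Core) :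
    dl p t ≤ d0 p * 2 := by
  have : Fact p.Prime := ⟨hp⟩
  have hp4 := p_ge hp h3
  have h1 := nc3_le h3 fun i => (cv (t i) : ZMod p)
  have h1' : 3 * (nc3 p (fun i => (cv (t i) : ZMod p)) : ℝ) +
      (V4 p (fun i => (cv (t i) : ZMod p)) : ℝ) ≤ 3 * (p : ℝ) ^ 3 := by exact_mod_cast h1
  have hV : (0 : ℝ) ≤ (V4 p (fun i => (cv (t i) : ZMod p)) : ℝ) := Nat.cast_nonneg _
  refine dl_le_of (c := 3) hp (by linarith) ?_
  have : 1 / (p : ℝ) ≤ 1 / 4 := one_div_le_one_div_of_le (by norm_num) hp4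
  linarith

end Pool.Agent.helper62.PW
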