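import Mathlib
import Pool.Agent.helper62.PW.Defs

set_option autoImplicit false

/-!
# PW-Box: counting in boxes

PROOFS. `cv_pos`. `mem_Xr`: `x ≤ ⌊(N / cv B) ^ (1 / 3)⌋₊` iff `x ≤ (N / cv B) ^ (1 / 3)` iff
`x ^ 3 ≤ N / cv B` iff `x ^ 3 * cv B ≤ N`. `Xr_le`: `Xr N B ≤ (N / cv B) ^ (1 / 3) =
N ^ (1 / 3) * wt B`. `Xr_tendsto`: `⌊N ^ (1 / 3) wt B⌋₊ / N ^ (1 / 3) → wt B` (`tendsto_nat_floor_mul_div_atTop`
or directly). `box_le`: the box has `∏ Xr N (t i) ≤ ∏ (N ^ (1 / 3) wt (t i)) = N ∏ wt (t i)` elements.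
`box_tendsto`: the box is the disjoint union over the residue classes `r : Fin 3 → Fin M` (or
`ZMod M`) with `∑ cv (t i) r i ^ 3 = n` of the products of the sets `{x ∈ Icc 1 X | x % M = r i}`,
which have `X / M + O(1)` elements (`Nat.Ioc_filter_modEq_card` or `Nat.count_modEq_card`, or
directly: between `X / M` and `X / M + 1`); divide by `N = (N ^ (1 / 3)) ^ 3`. For `(x : ZMod M) = (r :
ZMod M)` use `ZMod.natCast_eq_natCast_iff'`.
-/

namespace Pool.Agent.helper62.PW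

open Finset Filter Topology

theorem cv_pos (B : Core) : 0 < cv B := by
  unfold cv; positivity

theorem wt_pos (B : Core) : 0 < wt B := by
  unfold wt
  have := cv_pos B
  positivity

private theorem cube_third {x : ℝ} (hx : 0 ≤ x) : (x ^ (1 / 3 : ℝ)) ^ 3 = x := by
  rw [← Real.rpow_natCast, ← Real.rpow_mul hx]
  norm_num

private theorem third_eq (N : ℕ) (B : Core) :
    ((N : ℝ) / cv B) ^ (1 / 3 : ℝ) = (N : ℝ) ^ (1 / 3 : ℝ) * wt B := by
  unfold wt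
  rw [Real.div_rpow (by positivity) (by positivity), Real.rpow_neg (by positivity), div_eq_mul_inv]

theorem mem_Xr {N x : ℕ} {B : Core} : x ≤ Xr N B ↔ x ^ 3 * cv B ≤ N := by
  have hc : (0 : ℝ) < cv B := by exact_mod_cast cv_pos B
  have h0 : (0 : ℝ) ≤ (N : ℝ) / cv B := by positivity
  unfold Xr
  rw [Nat.le_floor_iff (by positivity)]
  have h1 : (x : ℝ) ≤ ((N : ℝ) / cv B) ^ (1 / 3 : ℝ) ↔ (x : ℝ) ^ 3 ≤ (N : ℝ) / cv B := by
    conv_rhs => rw [← cube_third h0]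
    exact (pow_le_pow_iff_left₀ (by positivity) (by positivity) (by norm_num)).symm
  rw [h1, le_div_iff₀ hc]
  exact_mod_cast Iff.rfl

theorem Xr_le (N : ℕ) (B : Core) : (Xr N B : ℝ) ≤ (N : ℝ) ^ (1 / 3 : ℝ) * wt B := by
  rw [← third_eq]
  exact Nat.floor_le (by positivity)

private theorem third_tendsto :
    Tendsto (fun N : ℕ => (N : ℝ) ^ (1 / 3 : ℝ)) atTop atTop :=
  (tendsto_rpow_atTop (by norm_num : (0 : ℝ) < 1 / 3)).comp tendsto_natCast_atTop_atTop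

theorem Xr_tendsto (B : Core) :
    Tendsto (fun N : ℕ => (Xr N B : ℝ) / (N : ℝ) ^ (1 / 3 : ℝ)) atTop (𝓝 (wt B)) := by
  have h := (tendsto_nat_floor_mul_div_atTop (wt_pos B).le).comp third_tendsto
  refine h.congr fun N => ?_
  simp only [Function.comp, Xr, third_eq, mul_comm]

theorem box_le (M N n : ℕ) (t : Fin 3 → Core) : (box M N n t : ℝ) ≤ N * ∏ i, wt (t i) := by
  have h1 : (box M N n t : ℝ) ≤ ∏ i, (Xr N (t i) : ℝ) := by
    unfold box
    have := Finset.card_filter_le (Fintype.piFinset (fun i : Fin 3 => Icc 1 (Xr N (t i))))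
      (fun x => (∑ i, cv (t i) * x i ^ 3) % M = n)
    rw [Fintype.card_piFinset] at this
    simp only [Nat.card_Icc, Nat.add_sub_cancel] at this
    exact_mod_cast this
  have h2 : ∏ i, (Xr N (t i) : ℝ) ≤ ∏ i, ((N : ℝ) ^ (1 / 3 : ℝ) * wt (t i)) :=
    Finset.prod_le_prod (fun i _ => by positivity) (fun i _ => Xr_le N (t i))
  refine h1.trans (h2.trans (le_of_eq ?_))
  rw [Finset.prod_mul_distrib, Finset.prod_const, Finset.card_univ, Fintype.card_fin,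
    cube_third (by positivity)]

/-- the number of `x ∈ [1, X]` in a residue class -/
private noncomputable def rc (M X : ℕ) (a : ZMod M) : ℕ := #{x ∈ Icc 1 X | ((x : ℕ) : ZMod M) = a}

private theorem rc_bound {M : ℕ} (hM : 0 < M) (X : ℕ) (a : ZMod M) :
    |(rc M X a : ℝ) - (X : ℝ) / M| ≤ 1 := by
  have : NeZero M := ⟨hM.ne'⟩
  have hM' : (0 : ℝ) < M := by exact_mod_cast hM
  have h1 : rc M X a = #{x ∈ Ioc 0 X | x ≡ a.val [MOD M]} := by
    unfold rc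
    congr 1
    ext x
    simp only [mem_filter, mem_Icc, mem_Ioc]
    rw [← ZMod.natCast_eq_natCast_iff, ZMod.natCast_zmod_val]
    constructor <;> rintro ⟨⟨h, h'⟩, h''⟩ <;> exact ⟨⟨by omega, h'⟩, h''⟩
  have h2 := Nat.Ioc_filter_modEq_card 0 X hM a.val
  rw [← h1] at h2
  have h3 : ((rc M X a : ℤ)) = ⌊((X : ℚ) - (a.val : ℚ)) / (M : ℚ)⌋ - ⌊(((0 : ℕ) : ℚ) - (a.val : ℚ)) / (M : ℚ)⌋ := by
    rw [h2, max_eq_left]
    rw [sub_nonneg]
    apply Int.floor_le_floor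
    gcongr
    exact_mod_cast Nat.zero_le X
  have h4 : ((rc M X a : ℚ)) = (⌊((X : ℚ) - (a.val : ℚ)) / (M : ℚ)⌋ : ℚ) - (⌊(((0 : ℕ) : ℚ) - (a.val : ℚ)) / (M : ℚ)⌋ : ℚ) := by
    exact_mod_cast congrArg (fun z : ℤ => (z : ℚ)) h3
  have h5 : |(rc M X a : ℚ) - (X : ℚ) / M| ≤ 1 := by
    rw [h4, abs_le]
    have e1 := Int.floor_le (((X : ℚ) - (a.val : ℚ)) / (M : ℚ))
    have e2 := Int.lt_floor_add_one (((X : ℚ) - (a.val : ℚ)) / (M : ℚ))
    have e3 := Int.floor_le ((((0 : ℕ) : ℚ) - (a.val : ℚ)) / (M : ℚ))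
    have e4 := Int.lt_floor_add_one ((((0 : ℕ) : ℚ) - (a.val : ℚ)) / (M : ℚ))
    have e5 : ((X : ℚ) - (a.val : ℚ)) / (M : ℚ) - (((0 : ℕ) : ℚ) - (a.val : ℚ)) / (M : ℚ) = (X : ℚ) / M := by
      push_cast; ring
    constructor <;> linarith
  have h6 : ((|(rc M X a : ℚ) - (X : ℚ) / M| : ℚ) : ℝ) ≤ ((1 : ℚ) : ℝ) := Rat.cast_le.2 h5
  push_cast at h6
  exact h6

private theorem rc_tendsto {M : ℕ} (hM : 0 < M) (B : Core) (a : ZMod M) :
    Tendsto (fun N : ℕ => (rc M (Xr N B) a : ℝ) / (N : ℝ) ^ (1 / 3 : ℝ)) atTop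
      (𝓝 (wt B / M)) := by
  have h1 : Tendsto (fun N : ℕ => (Xr N B : ℝ) / (N : ℝ) ^ (1 / 3 : ℝ) / M) atTop
      (𝓝 (wt B / M)) := (Xr_tendsto B).div_const _
  have h2 : Tendsto (fun N : ℕ => ((rc M (Xr N B) a : ℝ) - (Xr N B : ℝ) / M) /
      (N : ℝ) ^ (1 / 3 : ℝ)) atTop (𝓝 0) := by
    have h3 : Tendsto (fun N : ℕ => 1 / (N : ℝ) ^ (1 / 3 : ℝ)) atTop (𝓝 0) := by
      simp only [one_div]
      exact third_tendsto.inv_tendsto_atTop |>.congr fun N => by simp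
    refine squeeze_zero_norm (fun N => ?_) h3
    rw [norm_div, Real.norm_eq_abs, Real.norm_eq_abs,
      abs_of_nonneg (by positivity : (0 : ℝ) ≤ (N : ℝ) ^ (1 / 3 : ℝ))]
    exact div_le_div_of_nonneg_right (rc_bound hM _ _) (by positivity)
  have h4 := h2.add h1
  rw [zero_add] at h4
  refine h4.congr fun N => ?_
  rw [sub_div]
  ring

private theorem box_eq {M : ℕ} [NeZero M] {n : ℕ} (hn : n < M) (N : ℕ) (t : Fin 3 → Core) :
    box M N n t = ∑ r ∈ (univ : Finset (Fin 3 → ZMod M)).filter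
      (fun r => ∑ i, (cv (t i) : ZMod M) * r i ^ 3 = (n : ZMod M)),
      ∏ i, rc M (Xr N (t i)) (r i) := by
  unfold box
  have key : ∀ x : Fin 3 → ℕ, ((∑ i, cv (t i) * x i ^ 3) % M = n ↔
      ∑ i, (cv (t i) : ZMod M) * ((x i : ℕ) : ZMod M) ^ 3 = (n : ZMod M)) := by
    intro x
    have : (∑ i, (cv (t i) : ZMod M) * ((x i : ℕ) : ZMod M) ^ 3) =
        ((∑ i, cv (t i) * x i ^ 3 : ℕ) : ZMod M) := by push_cast; rfl
    rw [this, ZMod.natCast_eq_natCast_iff', Nat.mod_eq_of_lt hn]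
  rw [Finset.card_eq_sum_card_fiberwise (f := fun x : Fin 3 → ℕ => fun i => ((x i : ℕ) : ZMod M))
    (t := (univ : Finset (Fin 3 → ZMod M)).filter
      (fun r => ∑ i, (cv (t i) : ZMod M) * r i ^ 3 = (n : ZMod M)))]
  · refine Finset.sum_congr rfl fun r hr => ?_
    rw [mem_filter] at hr
    unfold rc
    rw [← Fintype.card_piFinset]
    congr 1
    ext x
    simp only [mem_filter, Fintype.mem_piFinset, key, funext_iff]
    constructor
    · rintro ⟨⟨h1, -⟩, h2⟩ i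
      exact ⟨h1 i, h2 i⟩
    · intro h
      refine ⟨⟨fun i => (h i).1, ?_⟩, fun i => (h i).2⟩
      simp only [(h _).2]
      exact hr.2
  · intro x hx
    simp only [coe_filter, Set.mem_ofPred_eq, key, mem_univ, true_and] at hx ⊢
    exact hx.2

theorem box_tendsto {M n : ℕ} (hM : 0 < M) (hn : n < M) (t : Fin 3 → Core) :
    Tendsto (fun N : ℕ => (box M N n t : ℝ) / N) atTop
      (𝓝 ((∏ i, wt (t i)) * ((loc M n t : ℝ) / (M : ℝ) ^ 3))) := by
  have : NeZero M := ⟨hM.ne'⟩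
  have h1 : Tendsto (fun N : ℕ => ∑ r ∈ (univ : Finset (Fin 3 → ZMod M)).filter
      (fun r => ∑ i, (cv (t i) : ZMod M) * r i ^ 3 = (n : ZMod M)),
      ∏ i, ((rc M (Xr N (t i)) (r i) : ℝ) / (N : ℝ) ^ (1 / 3 : ℝ))) atTop
      (𝓝 (∑ r ∈ (univ : Finset (Fin 3 → ZMod M)).filter
      (fun r => ∑ i, (cv (t i) : ZMod M) * r i ^ 3 = (n : ZMod M)), ∏ i, (wt (t i) / M))) :=
    tendsto_finsetSum _ fun r _ => tendsto_finsetProd _ fun i _ => rc_tendsto hM _ _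
  have h2 : (∑ r ∈ (univ : Finset (Fin 3 → ZMod M)).filter
      (fun r => ∑ i, (cv (t i) : ZMod M) * r i ^ 3 = (n : ZMod M)), ∏ i, (wt (t i) / (M : ℝ))) =
      (∏ i, wt (t i)) * ((loc M n t : ℝ) / (M : ℝ) ^ 3) := by
    rw [Finset.sum_const, nsmul_eq_mul, Finset.prod_div_distrib, Finset.prod_const,
      Finset.card_univ, Fintype.card_fin]
    have : (loc M n t : ℝ) = (#((univ : Finset (Fin 3 → ZMod M)).filter
      (fun r => ∑ i, (cv (t i) : ZMod M) * r i ^ 3 = (n : ZMod M))) : ℝ) := by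
      unfold loc
      rw [Nat.card_eq_fintype_card, Fintype.card_subtype]
    rw [this]
    ring
  rw [h2] at h1
  refine h1.congr fun N => ?_
  rw [box_eq hn N t]
  push_cast
  rw [Finset.sum_div]
  refine Finset.sum_congr rfl fun r _ => ?_
  rw [Finset.prod_div_distrib, Finset.prod_const, Finset.card_univ, Fintype.card_fin,
    cube_third (by positivity)]

end Pool.Agent.helper62.PW
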