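import Mathlib
import Pool.Agent.helper62.PW.Box

set_option autoImplicit false

/-!
# PW-Sm: summability

PROOFS. `wt B = (b + 1) ^ (-4/3) (c + 1) ^ (-5/3)`; `mj B = 2 ^ 64 (b + 1) ^ (-7/6) (c + 1) ^ (-3/2)`:
products of convergent series (`Summable.mul_of_nonneg`, `Real.summable_nat_rpow_inv` / `Real.summable_one_div_nat_add_rpow`,
shift by one). `hasSum_tr`: for `f ≥ 0` summable the products
`∏ i, f (t i)` over `t : Fin 3 → Core` have the sum `(∑' f) ^ 3` (equivalence of `Fin 3 → Core` with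
`Core × Core × Core`).
`exists_not_small`: the sum over the triples which are not small is `S ^ 3 - S_Y ^ 3` where `S_Y` is
the sum of `f` over the small cores, and `S_Y → S`.
-/

namespace Pool.Agent.helper62.PW

open Finset Filter Topology

/-- all prime factors of the core are at most `Y` -/
def SmallC (Y : ℕ) (B : Core) : Prop := B.1 + 1 ≤ Y ∧ B.2 + 1 ≤ Y

private theorem summable_shift {s : ℝ} (hs : s < -1) :
    Summable fun n : ℕ => ((n + 1 : ℕ) : ℝ) ^ s := by
  have h : Summable fun n : ℕ => (n : ℝ) ^ s := Real.summable_nat_rpow.2 hs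
  exact (summable_nat_add_iff 1).2 h

private theorem summable_prod2 {s u : ℝ} (hs : s < -1) (hu : u < -1) :
    Summable fun B : Core => ((B.1 + 1 : ℕ) : ℝ) ^ s * ((B.2 + 1 : ℕ) : ℝ) ^ u :=
  (summable_shift hs).mul_of_nonneg (summable_shift hu)
    (fun _ => Real.rpow_nonneg (Nat.cast_nonneg _) _)
    (fun _ => Real.rpow_nonneg (Nat.cast_nonneg _) _)

private theorem wt_eq (B : Core) :
    wt B = ((B.1 + 1 : ℕ) : ℝ) ^ (-(4 / 3) : ℝ) * ((B.2 + 1 : ℕ) : ℝ) ^ (-(5 / 3) : ℝ) := by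
  have h1 : (0 : ℝ) ≤ ((B.1 + 1 : ℕ) : ℝ) := Nat.cast_nonneg _
  have h2 : (0 : ℝ) ≤ ((B.2 + 1 : ℕ) : ℝ) := Nat.cast_nonneg _
  unfold wt cv
  push_cast
  have h1' : (0 : ℝ) ≤ (B.1 : ℝ) + 1 := by positivity
  have h2' : (0 : ℝ) ≤ (B.2 : ℝ) + 1 := by positivity
  rw [Real.mul_rpow (by positivity) (by positivity), ← Real.rpow_natCast, ← Real.rpow_natCast,
    ← Real.rpow_mul h1', ← Real.rpow_mul h2']
  norm_num

theorem summable_wt : Summable wt := by
  have h : wt = fun B : Core =>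
      ((B.1 + 1 : ℕ) : ℝ) ^ (-(4 / 3) : ℝ) * ((B.2 + 1 : ℕ) : ℝ) ^ (-(5 / 3) : ℝ) := by
    funext B
    exact wt_eq B
  rw [h]
  exact summable_prod2 (by norm_num) (by norm_num)

theorem mj_nonneg (B : Core) : 0 ≤ mj B := by
  unfold mj wt
  positivity

theorem summable_mj : Summable mj := by
  have h : mj = fun B : Core => 2 ^ 64 *
      (((B.1 + 1 : ℕ) : ℝ) ^ (-(7 / 6) : ℝ) * ((B.2 + 1 : ℕ) : ℝ) ^ (-(3 / 2) : ℝ)) := by
    funext B
    unfold mj
    rw [wt_eq B]
    have h1 : (0 : ℝ) < ((B.1 + 1 : ℕ) : ℝ) := by positivity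
    have h2 : (0 : ℝ) < ((B.2 + 1 : ℕ) : ℝ) := by positivity
    rw [Real.mul_rpow h1.le h2.le]
    have e1 : ((B.1 + 1 : ℕ) : ℝ) ^ (-(7 / 6) : ℝ) =
        ((B.1 + 1 : ℕ) : ℝ) ^ (1 / 6 : ℝ) * ((B.1 + 1 : ℕ) : ℝ) ^ (-(4 / 3) : ℝ) := by
      rw [← Real.rpow_add h1]
      norm_num
    have e2 : ((B.2 + 1 : ℕ) : ℝ) ^ (-(3 / 2) : ℝ) =
        ((B.2 + 1 : ℕ) : ℝ) ^ (1 / 6 : ℝ) * ((B.2 + 1 : ℕ) : ℝ) ^ (-(5 / 3) : ℝ) := by
      rw [← Real.rpow_add h2]
      norm_num
    rw [e1, e2]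
    ring
  rw [h]
  exact (summable_prod2 (by norm_num) (by norm_num)).mul_left _

/-- triples as functions -/
private def trEquiv : Core × Core × Core ≃ (Fin 3 → Core) where
  toFun x := ![x.1, x.2.1, x.2.2]
  invFun t := (t 0, t 1, t 2)
  left_inv x := rfl
  right_inv t := by
    funext i
    fin_cases i <;> rfl

theorem hasSum_tr {f : Core → ℝ} (h0 : ∀ B, 0 ≤ f B) (hf : Summable f) :
    HasSum (fun t : Fin 3 → Core => ∏ i, f (t i)) ((∑' B, f B) ^ 3) := by
  rw [← trEquiv.hasSum_iff]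
  have h2s : Summable fun x : Core × Core => f x.1 * f x.2 := hf.mul_of_nonneg hf h0 h0
  have h2 : HasSum (fun x : Core × Core => f x.1 * f x.2) ((∑' B, f B) * ∑' B, f B) :=
    hf.hasSum.mul hf.hasSum h2s
  have h3s : Summable fun x : Core × (Core × Core) => f x.1 * (f x.2.1 * f x.2.2) :=
    hf.mul_of_nonneg h2s h0 (fun x => mul_nonneg (h0 _) (h0 _))
  have h3 := hf.hasSum.mul h2 h3s
  have e : (∑' B, f B) ^ 3 = (∑' B, f B) * ((∑' B, f B) * ∑' B, f B) := by ring
  rw [e]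
  have e2 : ((fun t : Fin 3 → Core => ∏ i, f (t i)) ∘ trEquiv) =
      fun x : Core × (Core × Core) => f x.1 * (f x.2.1 * f x.2.2) := by
    funext x
    simp only [Function.comp, Fin.prod_univ_three]
    change f x.1 * f x.2.1 * f x.2.2 = _
    ring
  rw [e2]
  exact h3

open Classical in
theorem exists_not_small {f : Core → ℝ} (h0 : ∀ B, 0 ≤ f B) (hf : Summable f) {δ : ℝ}
    (hδ : 0 < δ) : ∃ Y : ℕ,
      ∑' t : Fin 3 → Core, (if ∀ i, SmallC Y (t i) then 0 else ∏ i, f (t i)) ≤ δ := by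
  -- the partial sums over the boxes
  have hF : Tendsto (fun Y : ℕ => range Y ×ˢ range Y) atTop (atTop : Filter (Finset Core)) := by
    refine tendsto_atTop_finset_of_monotone ?_ ?_
    · intro a b hab
      exact Finset.product_subset_product (range_mono hab) (range_mono hab)
    · intro B
      refine ⟨max B.1 B.2 + 1, ?_⟩
      simp only [mem_product, mem_range]
      omega
  have hS : Tendsto (fun Y : ℕ => ∑ B ∈ range Y ×ˢ range Y, f B) atTop (𝓝 (∑' B, f B)) :=
    hf.hasSum.comp hF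
  have hS3 : Tendsto (fun Y : ℕ => (∑' B, f B) ^ 3 - (∑ B ∈ range Y ×ˢ range Y, f B) ^ 3) atTop
      (𝓝 0) := by
    have h := (tendsto_const_nhds (x := (∑' B, f B) ^ 3)).sub (hS.pow 3)
    simpa using h
  obtain ⟨Y, hY⟩ := (hS3.eventually (gt_mem_nhds hδ)).exists
  refine ⟨Y, ?_⟩
  set g : Core → ℝ := fun B => if SmallC Y B then f B else 0 with hg
  have hg0 : ∀ B, 0 ≤ g B := by
    intro B
    simp only [hg]
    split_ifs
    · exact h0 B
    · exact le_rfl
  have hmem : ∀ B : Core, SmallC Y B ↔ B ∈ range Y ×ˢ range Y := by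
    intro B
    simp only [SmallC, mem_product, mem_range]
    omega
  have hgsum : ∑' B, g B = ∑ B ∈ range Y ×ˢ range Y, f B := by
    rw [tsum_eq_sum (s := range Y ×ˢ range Y)]
    · refine sum_congr rfl fun B hB => ?_
      simp only [hg, if_pos ((hmem B).2 hB)]
    · intro B hB
      simp only [hg, if_neg (fun h => hB ((hmem B).1 h))]
  have hgs : Summable g := by
    refine Summable.of_nonneg_of_le hg0 (fun B => ?_) hf
    simp only [hg]
    split_ifs
    · exact le_rfl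
    · exact h0 B
  have h1 := hasSum_tr h0 hf
  have h2 := hasSum_tr hg0 hgs
  have h3 := h1.sub h2
  have h4 : (fun t : Fin 3 → Core => if ∀ i, SmallC Y (t i) then (0 : ℝ) else ∏ i, f (t i)) =
      fun t : Fin 3 → Core => ∏ i, f (t i) - ∏ i, g (t i) := by
    funext t
    by_cases h : ∀ i, SmallC Y (t i)
    · rw [if_pos h]
      have : ∏ i, g (t i) = ∏ i, f (t i) :=
        prod_congr rfl fun i _ => by simp only [hg, if_pos (h i)]
      rw [this, sub_self]
    · rw [if_neg h]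
      push Not at h
      obtain ⟨i, hi⟩ := h
      have : ∏ i, g (t i) = 0 :=
        prod_eq_zero (mem_univ i) (by simp only [hg, if_neg hi])
      rw [this, sub_zero]
  rw [h4, h3.tsum_eq, hgsum]
  exact hY.le

end Pool.Agent.helper62.PW
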