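import Mathlib
import Pool.Agent.helper62.PW.LocD
import Pool.Agent.helper62.PW.Sm

set_option autoImplicit false

/-!
# PW-Ana: the product of the local factors

PROOFS. `two_pow_le`: for `n ≥ 1` and a finite set `P` of primes, `2 ^ card {p ∈ P | p ∣ n} ≤
∏_{p ∣ n} 2 ≤ ∏_{p ∣ n} ((if p < 64 then 2 else 1) * p ^ (1 / 6)) ≤ 2 ^ 64 * n ^ (1 / 6)`
(`2 ≤ p ^ (1 / 6)` for `p ≥ 64`; `∏_{p ∣ n} p ≤ n`, `Nat.prod_primeFactors_dvd`).
`small_cube`: if `SmallC Y B` and `p ∈ QY Y`, `Y < p`, then `cv B` is a nonzero cube modulo `p`: all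
prime factors of `(b + 1)` and `(c + 1)` are at most `Y` (induction, products of cubes are cubes).
`prod_small`: all `t i` small: `∏ dl ≤ ∏ d0 * exp (- ∑ 1 / (2 p)) ≤ ∏ d0 * exp (- L / 2)`
(`dl_le_cube`). `prod_gen`: for each `p ∈ P` either `p ∤ cv (t i)` for all `i` (`dl_le_gen`) or `p`
divides `(b i + 1) (c i + 1)` for some `i` (`dl_le_any`): `∏ dl ≤ ∏ d0 * exp (38 ∑ 1 / p) * 2 ^ card
{p ∈ P | p ∣ some (b i + 1) (c i + 1)} ≤ ∏ d0 * exp (38 (L + 1)) * ∏ i, 2 ^ 64 ((b i + 1) (c i + 1)) ^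
(1 / 6)`.
-/

namespace Pool.Agent.helper62.PW

open Finset Filter Topology

theorem two_pow_le {P : Finset ℕ} (hP : ∀ p ∈ P, p.Prime) {n : ℕ} (hn : 0 < n) :
    (2 : ℝ) ^ (P.filter fun p => p ∣ n).card ≤ 2 ^ 64 * (n : ℝ) ^ (1 / 6 : ℝ) := by
  set S := P.filter fun p => p ∣ n with hS
  set S1 := S.filter fun p => p < 64 with hS1
  set S2 := S.filter fun p => ¬ p < 64 with hS2
  have hcard : S.card = S1.card + S2.card := by
    rw [hS1, hS2, Finset.card_filter_add_card_filter_not]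
  have h1 : S1.card ≤ 64 := by
    calc S1.card ≤ (Finset.range 64).card := by
          apply Finset.card_le_card
          intro p hp
          rw [hS1, Finset.mem_filter] at hp
          exact Finset.mem_range.2 hp.2
      _ = 64 := Finset.card_range 64
  have h2 : (2 : ℝ) ^ S2.card ≤ (n : ℝ) ^ (1 / 6 : ℝ) := by
    have hsub : S2 ⊆ n.primeFactors := by
      intro p hp
      rw [hS2, Finset.mem_filter, hS, Finset.mem_filter] at hp
      exact Nat.mem_primeFactors.2 ⟨hP p hp.1.1, hp.1.2, hn.ne'⟩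
    have hdvd : ∏ p ∈ S2, p ∣ n :=
      (Finset.prod_dvd_prod_of_subset _ _ _ hsub).trans (Nat.prod_primeFactors_dvd n)
    have hle : ∏ p ∈ S2, p ≤ n := Nat.le_of_dvd hn hdvd
    calc (2 : ℝ) ^ S2.card = ∏ p ∈ S2, (2 : ℝ) := by rw [Finset.prod_const]
      _ ≤ ∏ p ∈ S2, (p : ℝ) ^ (1 / 6 : ℝ) := by
          apply Finset.prod_le_prod
          · intro p _
            norm_num
          · intro p hp
            rw [hS2, Finset.mem_filter] at hp
            have h64 : (64 : ℝ) ≤ p := by exact_mod_cast not_lt.1 hp.2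
            have h2' : (2 : ℝ) = (64 : ℝ) ^ (1 / 6 : ℝ) := by
              rw [show (64 : ℝ) = 2 ^ (6 : ℝ) by norm_num, ← Real.rpow_mul (by norm_num)]
              norm_num
            rw [h2']
            exact Real.rpow_le_rpow (by norm_num) h64 (by norm_num)
      _ = (∏ p ∈ S2, (p : ℝ)) ^ (1 / 6 : ℝ) :=
          Real.finsetProd_rpow _ _ (fun p _ => Nat.cast_nonneg p) _
      _ ≤ (n : ℝ) ^ (1 / 6 : ℝ) := by
          apply Real.rpow_le_rpow
          · exact Finset.prod_nonneg fun p _ => Nat.cast_nonneg p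
          · have hle' : ((∏ p ∈ S2, p : ℕ) : ℝ) ≤ n := by exact_mod_cast hle
            rw [Nat.cast_prod] at hle'
            exact hle'
          · norm_num
  rw [hcard, pow_add]
  have h3 : (2 : ℝ) ^ S1.card ≤ 2 ^ 64 := pow_le_pow_right₀ (by norm_num) h1
  exact mul_le_mul h3 h2 (by positivity) (by positivity)

private theorem small_aux {Y p : ℕ} (hp : p ∈ QY Y) (m : ℕ) :
    0 < m → m ≤ Y → ∃ c : ZMod p, c ^ 3 = (m : ZMod p) := by
  induction m using Nat.strong_induction_on with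
  | _ m ih =>
    intro h0 hY
    rcases Nat.lt_or_ge 1 m with h1 | h1
    · have hq : m.minFac.Prime := Nat.minFac_prime h1.ne'
      have hqd : m.minFac ∣ m := Nat.minFac_dvd m
      obtain ⟨k, hk⟩ := hqd
      have hk0 : 0 < k := by
        rcases Nat.eq_zero_or_pos k with h | h
        · rw [h, mul_zero] at hk
          omega
        · exact h
      have hkm : k < m := by
        have h2 : 2 ≤ m.minFac := hq.two_le
        have : 2 * k ≤ m.minFac * k := Nat.mul_le_mul_right k h2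
        omega
      have hqY : m.minFac ≤ Y := (Nat.minFac_le h0).trans hY
      obtain ⟨x, hx⟩ := hp.2.2 m.minFac hq hqY
      obtain ⟨y, hy⟩ := ih k hkm hk0 (hkm.le.trans hY)
      refine ⟨x * y, ?_⟩
      rw [mul_pow, hx, hy]
      conv_rhs => rw [hk]
      push_cast
      rfl
    · have : m = 1 := by omega
      subst this
      exact ⟨1, by simp⟩

theorem small_cube {Y p : ℕ} (hp : p ∈ QY Y) (hY : Y < p) {B : Core} (hB : SmallC Y B) :
    (cv B : ZMod p) ≠ 0 ∧ ∃ c : ZMod p, c ^ 3 = (cv B : ZMod p) := by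
  have : Fact p.Prime := ⟨hp.1⟩
  have key : ∀ m : ℕ, 0 < m → m ≤ Y → (m : ZMod p) ≠ 0 := by
    intro m h0 h1 h
    rw [ZMod.natCast_eq_zero_iff] at h
    have := Nat.le_of_dvd h0 h
    omega
  obtain ⟨x, hx⟩ := small_aux hp (B.1 + 1) (by omega) hB.1
  obtain ⟨y, hy⟩ := small_aux hp (B.2 + 1) (by omega) hB.2
  have hx0 := key (B.1 + 1) (by omega) hB.1
  have hy0 := key (B.2 + 1) (by omega) hB.2
  have hcv : (cv B : ZMod p) = ((B.1 + 1 : ℕ) : ZMod p) ^ 4 * ((B.2 + 1 : ℕ) : ZMod p) ^ 5 := by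
    unfold cv
    push_cast
    ring
  rw [hcv]
  refine ⟨mul_ne_zero (pow_ne_zero _ hx0) (pow_ne_zero _ hy0), ⟨x ^ 4 * y ^ 5, ?_⟩⟩
  rw [← hx, ← hy]
  ring

private theorem wt_nonneg' (B : Core) : 0 ≤ wt B := by
  unfold wt
  positivity

theorem prod_small {Y : ℕ} {P : Finset ℕ} (hP : ∀ p ∈ P, p ∈ QY Y ∧ Y < p) {L : ℝ}
    (h1 : L ≤ ∑ p ∈ P, 1 / (p : ℝ)) {t : Fin 3 → Core} (ht : ∀ i, SmallC Y (t i)) :
    (∏ i, wt (t i)) * ∏ p ∈ P, dl p t ≤
      (∏ p ∈ P, d0 p) * (Real.exp (-(L / 2)) * ∏ i, wt (t i)) := by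
  have hA : ∏ p ∈ P, dl p t ≤ (∏ p ∈ P, d0 p) * Real.exp (-(L / 2)) := by
    calc ∏ p ∈ P, dl p t ≤ ∏ p ∈ P, (d0 p * Real.exp (-(1 / (2 * (p : ℝ))))) := by
          apply Finset.prod_le_prod
          · intro p _
            exact dl_nonneg p t
          · intro p hp
            exact dl_le_cube (hP p hp).1.1 (hP p hp).1.2.1
              fun i => small_cube (hP p hp).1 (hP p hp).2 (ht i)
      _ = (∏ p ∈ P, d0 p) * Real.exp (∑ p ∈ P, -(1 / (2 * (p : ℝ)))) := by
          rw [Finset.prod_mul_distrib, Real.exp_sum]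
      _ ≤ (∏ p ∈ P, d0 p) * Real.exp (-(L / 2)) := by
          apply mul_le_mul_of_nonneg_left
          · apply Real.exp_le_exp.2
            rw [Finset.sum_neg_distrib, neg_le_neg_iff]
            have : ∑ p ∈ P, 1 / (2 * (p : ℝ)) = (∑ p ∈ P, 1 / (p : ℝ)) / 2 := by
              rw [Finset.sum_div]
              apply Finset.sum_congr rfl
              intro p _
              rw [one_div, mul_inv, one_div]
              ring
            rw [this]
            linarith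
          · exact Finset.prod_nonneg fun p hp => (d0_pos (hP p hp).1.1).le
  calc (∏ i, wt (t i)) * ∏ p ∈ P, dl p t
      ≤ (∏ i, wt (t i)) * ((∏ p ∈ P, d0 p) * Real.exp (-(L / 2))) :=
        mul_le_mul_of_nonneg_left hA (Finset.prod_nonneg fun i _ => wt_nonneg' _)
    _ = (∏ p ∈ P, d0 p) * (Real.exp (-(L / 2)) * ∏ i, wt (t i)) := by ring

theorem prod_gen {Y : ℕ} {P : Finset ℕ} (hP : ∀ p ∈ P, p ∈ QY Y ∧ Y < p) {L : ℝ}
    (h2 : ∑ p ∈ P, 1 / (p : ℝ) ≤ L + 1) (t : Fin 3 → Core) :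
    (∏ i, wt (t i)) * ∏ p ∈ P, dl p t ≤
      (∏ p ∈ P, d0 p) * (Real.exp (38 * (L + 1)) * ∏ i, mj (t i)) := by
  classical
  set nn : Fin 3 → ℕ := fun i => ((t i).1 + 1) * ((t i).2 + 1) with hnn
  have hnn0 : ∀ i, 0 < nn i := fun i => by
    rw [hnn]
    positivity
  set bad := P.filter fun p => ∃ i, p ∣ nn i with hbad
  have hpt : ∀ p ∈ P, dl p t ≤
      (d0 p * Real.exp (38 / (p : ℝ))) * (if ∃ i, p ∣ nn i then 2 else 1) := by
    intro p hp
    have hpr := (hP p hp).1.1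
    have : Fact p.Prime := ⟨hpr⟩
    by_cases hb : ∃ i, p ∣ nn i
    · rw [if_pos hb]
      calc dl p t ≤ d0 p * 2 := dl_le_any hpr (hP p hp).1.2.1 t
        _ ≤ (d0 p * Real.exp (38 / (p : ℝ))) * 2 := by
            apply mul_le_mul_of_nonneg_right _ (by norm_num)
            apply le_mul_of_one_le_right (d0_pos hpr).le
            apply Real.one_le_exp
            positivity
    · rw [if_neg hb, mul_one]
      apply dl_le_gen hpr (hP p hp).1.2.1
      intro i h0
      apply hb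
      refine ⟨i, ?_⟩
      rw [ZMod.natCast_eq_zero_iff] at h0
      unfold cv at h0
      rw [hnn]
      rcases (Nat.Prime.dvd_mul hpr).1 h0 with h | h
      · exact Dvd.dvd.mul_right (hpr.dvd_of_dvd_pow h) _
      · exact Dvd.dvd.mul_left (hpr.dvd_of_dvd_pow h) _
  have hcard : bad.card ≤ ∑ i, (P.filter fun p => p ∣ nn i).card := by
    calc bad.card ≤ ((Finset.univ : Finset (Fin 3)).biUnion
          fun i => P.filter fun p => p ∣ nn i).card := by
          apply Finset.card_le_card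
          intro p hp
          rw [hbad, Finset.mem_filter] at hp
          obtain ⟨i, hi⟩ := hp.2
          exact Finset.mem_biUnion.2 ⟨i, Finset.mem_univ _, Finset.mem_filter.2 ⟨hp.1, hi⟩⟩
      _ ≤ ∑ i, (P.filter fun p => p ∣ nn i).card := Finset.card_biUnion_le
  have hpow : (2 : ℝ) ^ bad.card ≤ ∏ i, (2 ^ 64 * (nn i : ℝ) ^ (1 / 6 : ℝ)) := by
    calc (2 : ℝ) ^ bad.card ≤ 2 ^ (∑ i, (P.filter fun p => p ∣ nn i).card) :=
          pow_le_pow_right₀ (by norm_num) hcard
      _ = ∏ i, (2 : ℝ) ^ (P.filter fun p => p ∣ nn i).card := by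
          rw [Finset.prod_pow_eq_pow_sum]
      _ ≤ ∏ i, (2 ^ 64 * (nn i : ℝ) ^ (1 / 6 : ℝ)) := by
          apply Finset.prod_le_prod
          · intro i _
            positivity
          · intro i _
            exact two_pow_le (fun p hp => (hP p hp).1.1) (hnn0 i)
  have hA : ∏ p ∈ P, dl p t ≤
      (∏ p ∈ P, d0 p) * (Real.exp (38 * (L + 1)) * ∏ i, (2 ^ 64 * (nn i : ℝ) ^ (1 / 6 : ℝ))) := by
    have hd0 : 0 ≤ ∏ p ∈ P, d0 p := Finset.prod_nonneg fun p hp => (d0_pos (hP p hp).1.1).le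
    calc ∏ p ∈ P, dl p t
        ≤ ∏ p ∈ P, ((d0 p * Real.exp (38 / (p : ℝ))) * (if ∃ i, p ∣ nn i then 2 else 1)) :=
          Finset.prod_le_prod (fun p _ => dl_nonneg p t) hpt
      _ = ((∏ p ∈ P, d0 p) * Real.exp (∑ p ∈ P, 38 / (p : ℝ))) * 2 ^ bad.card := by
          rw [Finset.prod_mul_distrib, Finset.prod_mul_distrib, Real.exp_sum,
            Finset.prod_ite, Finset.prod_const, Finset.prod_const_one, mul_one]
      _ ≤ ((∏ p ∈ P, d0 p) * Real.exp (38 * (L + 1))) *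
            ∏ i, (2 ^ 64 * (nn i : ℝ) ^ (1 / 6 : ℝ)) := by
          apply mul_le_mul _ hpow (by positivity) (by positivity)
          apply mul_le_mul_of_nonneg_left _ hd0
          apply Real.exp_le_exp.2
          have : ∑ p ∈ P, 38 / (p : ℝ) = 38 * ∑ p ∈ P, 1 / (p : ℝ) := by
            rw [Finset.mul_sum]
            apply Finset.sum_congr rfl
            intro p _
            ring
          rw [this]
          linarith
      _ = _ := by ring
  have hmj : ∏ i, mj (t i) = (∏ i, (2 ^ 64 * (nn i : ℝ) ^ (1 / 6 : ℝ))) * ∏ i, wt (t i) := by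
    rw [← Finset.prod_mul_distrib]
    apply Finset.prod_congr rfl
    intro i _
    unfold mj
    rw [hnn]
    push_cast
    ring
  calc (∏ i, wt (t i)) * ∏ p ∈ P, dl p t
      ≤ (∏ i, wt (t i)) * ((∏ p ∈ P, d0 p) *
          (Real.exp (38 * (L + 1)) * ∏ i, (2 ^ 64 * (nn i : ℝ) ^ (1 / 6 : ℝ)))) :=
        mul_le_mul_of_nonneg_left hA (Finset.prod_nonneg fun i _ => wt_nonneg' _)
    _ = (∏ p ∈ P, d0 p) * (Real.exp (38 * (L + 1)) * ∏ i, mj (t i)) := by
        rw [hmj]
        ring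

end Pool.Agent.helper62.PW
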