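import Mathlib
import Pool.Agent.helper62.PW.Defs

set_option autoImplicit false

/-!
# PW-Dec: every 3-powerful number is `x ^ 3 * (b + 1) ^ 4 * (c + 1) ^ 5`

author: helper6

PROOF. Induction over coprime factors (`Nat.recOnPosPrimePosCoprime` or strong induction: split off
the power `p ^ e` of a prime `p ∣ m`, `e = m.factorization p ≥ 3`, and note that the cofactor is
again 3-powerful). For `m = p ^ e`, `e ≥ 3`: if `e = 3 a` take `x = p ^ a`, core `1`; if
`e = 3 a + 4` take `x = p ^ a`, `b + 1 = p`; if `e = 3 a + 5` take `x = p ^ a`, `c + 1 = p`.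
Products: `cv` is multiplicative in the pair `(b + 1, c + 1)`: if `b'' + 1 = (b + 1) (b' + 1)`,
`c'' + 1 = (c + 1) (c' + 1)` then `cv (b'', c'') = cv (b, c) * cv (b', c')`.
-/

namespace Pool.Agent.helper62.PW

open Finset

private lemma Pf_left {a b : ℕ} (hab : Nat.Coprime a b) (h : Pf 3 (a * b)) : Pf 3 a := by
  refine ⟨Nat.pos_of_ne_zero fun h0 => ?_, fun p hp hpa => ?_⟩
  · have := h.1
    rw [h0, zero_mul] at this
    exact lt_irrefl _ this
  · have h1 := h.2 p hp (hpa.mul_right b)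
    have h2 : Nat.Coprime (p ^ 3) b :=
      Nat.Coprime.pow_left 3 (Nat.Coprime.coprime_dvd_left hpa hab)
    exact h2.dvd_of_dvd_mul_right h1

theorem exists_core {m : ℕ} (h : Pf 3 m) : ∃ (x : ℕ) (B : Core), 0 < x ∧ m = x ^ 3 * cv B := by
  induction m using Nat.recOnPosPrimePosCoprime with
  | prime_pow p n hp hn =>
    have hp0 : 0 < p := hp.pos
    have h1 := h.2 p hp (dvd_pow_self p hn.ne')
    have h3 : 3 ≤ n := (Nat.pow_dvd_pow_iff_le_right hp.one_lt).1 h1
    have hc : p - 1 + 1 = p := Nat.sub_add_cancel hp0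
    rcases Nat.lt_or_ge (n % 3) 1 with h4 | h4
    · refine ⟨p ^ (n / 3), (0, 0), by positivity, ?_⟩
      simp only [cv, zero_add, one_pow, mul_one]
      rw [← pow_mul]
      congr 1
      omega
    · rcases Nat.lt_or_ge (n % 3) 2 with h5 | h5
      · refine ⟨p ^ (n / 3 - 1), (p - 1, 0), by positivity, ?_⟩
        simp only [cv, zero_add, one_pow, mul_one, hc]
        rw [← pow_mul, ← pow_add]
        congr 1
        omega
      · refine ⟨p ^ (n / 3 - 1), (0, p - 1), by positivity, ?_⟩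
        simp only [cv, zero_add, one_pow, one_mul, hc]
        rw [← pow_mul, ← pow_add]
        congr 1
        omega
  | zero => exact absurd h.1 (lt_irrefl 0)
  | one => exact ⟨1, (0, 0), one_pos, by simp [cv]⟩
  | coprime a b ha hb hab iha ihb =>
    obtain ⟨x, B, hx, e⟩ := iha (Pf_left hab h)
    obtain ⟨y, C, hy, f⟩ := ihb (Pf_left hab.symm (by rw [mul_comm]; exact h))
    refine ⟨x * y, ((B.1 + 1) * (C.1 + 1) - 1, (B.2 + 1) * (C.2 + 1) - 1), Nat.mul_pos hx hy, ?_⟩
    have h1 : (B.1 + 1) * (C.1 + 1) - 1 + 1 = (B.1 + 1) * (C.1 + 1) :=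
      Nat.sub_add_cancel (Nat.mul_pos (Nat.succ_pos _) (Nat.succ_pos _))
    have h2 : (B.2 + 1) * (C.2 + 1) - 1 + 1 = (B.2 + 1) * (C.2 + 1) :=
      Nat.sub_add_cancel (Nat.mul_pos (Nat.succ_pos _) (Nat.succ_pos _))
    simp only [cv, h1, h2] at e f ⊢
    rw [e, f]
    ring

end Pool.Agent.helper62.PW
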