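import Mathlib
import Pool.Agent.helper62.PW.Dec
import Pool.Agent.helper62.PW.Sm

set_option autoImplicit false

/-!
# PW-Cover: from the boxes to the numbers

`card_Pf_le`: the 3-powerful numbers `m ≤ N` are `x ^ 3 cv B` with `1 ≤ x ≤ Xr N B`
(`exists_core`, `mem_Xr`), so their number is at most `∑ B, Xr N B` (finitely many nonzero terms),
at most `N ^ (1 / 3) ∑' wt` (`Xr_le`).
`ncard_le`: if `m < N`, `m % M = n`, `m ∈ SumPf 3`, then either `m` is a sum of at most two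
3-powerful numbers, which gives at most `(1 + N ^ (1 / 3) ∑' wt) ^ 2` numbers (each summand is `0` or
3-powerful, `≤ N`), or `m = ∑ cv (t i) x i ^ 3` with `x i ≥ 1`, `cv (t i) x i ^ 3 ≤ N`: `m` is the
value at an element of the box of `t`. Only finitely many `t` have a nonempty box (`cv (t i) ≤ N`).
`limit`: divide by `N`: `N ^ (2 / 3) / N → 0`, and the sum over `t` of `box M N n t / N` converges to
the sum of the limits by `tendsto_tsum_of_dominated_convergence` (`box_le`, `box_tendsto`, `hasSum_tr`).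
-/

namespace Pool.Agent.helper62.PW

open Finset Filter Topology

theorem fst_lt {N : ℕ} {B : Core} (h : cv B ≤ N) : B.1 < N ∧ B.2 < N := by
  have h1 : B.1 + 1 ≤ (B.1 + 1) ^ 4 := Nat.le_self_pow (by norm_num) _
  have h2 : B.2 + 1 ≤ (B.2 + 1) ^ 5 := Nat.le_self_pow (by norm_num) _
  have h3 : 1 ≤ (B.1 + 1) ^ 4 := Nat.one_le_pow _ _ (Nat.succ_pos _)
  have h4 : 1 ≤ (B.2 + 1) ^ 5 := Nat.one_le_pow _ _ (Nat.succ_pos _)
  have h5 : (B.1 + 1) ^ 4 ≤ cv B := Nat.le_mul_of_pos_right _ h4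
  have h6 : (B.2 + 1) ^ 5 ≤ cv B := Nat.le_mul_of_pos_left _ h3
  omega

theorem card_Pf_le (N : ℕ) :
    ({m : ℕ | m ≤ N ∧ Pf 3 m}.ncard : ℝ) ≤ (N : ℝ) ^ (1 / 3 : ℝ) * ∑' B, wt B := by
  classical
  set F : Finset Core := range N ×ˢ range N with hF
  set G : Finset ℕ := (F.sigma fun B => Icc 1 (Xr N B)).image fun p => p.2 ^ 3 * cv p.1 with hG
  have hsub : {m : ℕ | m ≤ N ∧ Pf 3 m} ⊆ (G : Set ℕ) := by
    rintro m ⟨hm, hpf⟩
    obtain ⟨x, B, hx, rfl⟩ := exists_core hpf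
    have h1 : cv B ≤ N := (Nat.le_mul_of_pos_left _ (pow_pos hx 3)).trans hm
    obtain ⟨h2, h3⟩ := fst_lt h1
    rw [hG, coe_image]
    refine ⟨⟨B, x⟩, ?_, rfl⟩
    rw [mem_coe, mem_sigma]
    exact ⟨mem_product.2 ⟨mem_range.2 h2, mem_range.2 h3⟩, mem_Icc.2 ⟨hx, mem_Xr.2 hm⟩⟩
  have h1 : {m : ℕ | m ≤ N ∧ Pf 3 m}.ncard ≤ ∑ B ∈ F, Xr N B := by
    refine (Set.ncard_le_ncard hsub G.finite_toSet).trans ?_
    rw [Set.ncard_coe_finset]
    refine card_image_le.trans ?_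
    rw [card_sigma]
    simp
  calc ({m : ℕ | m ≤ N ∧ Pf 3 m}.ncard : ℝ) ≤ ∑ B ∈ F, (Xr N B : ℝ) := by exact_mod_cast h1
    _ ≤ ∑ B ∈ F, (N : ℝ) ^ (1 / 3 : ℝ) * wt B := sum_le_sum fun B _ => Xr_le N B
    _ = (N : ℝ) ^ (1 / 3 : ℝ) * ∑ B ∈ F, wt B := by rw [mul_sum]
    _ ≤ (N : ℝ) ^ (1 / 3 : ℝ) * ∑' B, wt B := by
        refine mul_le_mul_of_nonneg_left ?_ (Real.rpow_nonneg (Nat.cast_nonneg _) _)
        exact summable_wt.sum_le_tsum _ fun B _ => (wt_pos B).le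

theorem box_summable (M N n : ℕ) : Summable fun t : Fin 3 → Core => (box M N n t : ℝ) := by
  have hw := hasSum_tr (fun B => (wt_pos B).le) summable_wt
  exact Summable.of_nonneg_of_le (fun t => Nat.cast_nonneg _) (fun t => box_le M N n t)
    (hw.summable.mul_left _)

theorem ncard_le (M N n : ℕ) :
    ({m : ℕ | m < N ∧ m % M = n ∧ m ∈ SumPf 3}.ncard : ℝ) ≤
      (1 + (N : ℝ) ^ (1 / 3 : ℝ) * ∑' B, wt B) ^ 2 +
        ∑' t : Fin 3 → Core, (box M N n t : ℝ) := by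
  classical
  have hfin : {m : ℕ | m ≤ N ∧ Pf 3 m}.Finite :=
    (Set.finite_le_nat N).subset fun m hm => hm.1
  set S : Finset ℕ := hfin.toFinset with hS
  set H : Finset ℕ := insert 0 S with hH
  have hSmem : ∀ m, m ∈ S ↔ m ≤ N ∧ Pf 3 m := fun m => by rw [hS, Set.Finite.mem_toFinset]; rfl
  have hHcard : (H.card : ℝ) ≤ 1 + (N : ℝ) ^ (1 / 3 : ℝ) * ∑' B, wt B := by
    have h1 : H.card ≤ S.card + 1 := card_insert_le _ _
    have h2 := card_Pf_le N
    rw [Set.ncard_eq_toFinset_card _ hfin] at h2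
    have h3 : (H.card : ℝ) ≤ S.card + 1 := by exact_mod_cast h1
    linarith
  set F : Finset Core := range N ×ˢ range N with hF
  set bx : (Fin 3 → Core) → Finset (Fin 3 → ℕ) := fun t =>
    {x ∈ Fintype.piFinset (fun i : Fin 3 => Icc 1 (Xr N (t i))) |
      (∑ i, cv (t i) * x i ^ 3) % M = n} with hbx
  set U : Finset ℕ := (Fintype.piFinset fun _ : Fin 3 => F).biUnion fun t =>
    (bx t).image fun x => ∑ i, cv (t i) * x i ^ 3 with hU
  set V : Finset ℕ := (H ×ˢ H).image fun p => p.1 + p.2 with hV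
  have hsub : {m : ℕ | m < N ∧ m % M = n ∧ m ∈ SumPf 3} ⊆ ((V ∪ U : Finset ℕ) : Set ℕ) := by
    rintro m ⟨hm, hmn, k, hk, f, hf, hmf⟩
    rw [mem_coe, mem_union]
    have hle : ∀ i, f i ≤ N := by
      intro i
      have : f i ≤ ∑ i, f i := single_le_sum (fun _ _ => Nat.zero_le _) (mem_univ i)
      omega
    have hfS : ∀ i, f i ∈ H := fun i => mem_insert_of_mem ((hSmem _).2 ⟨hle i, hf i⟩)
    have h0H : 0 ∈ H := mem_insert_self _ _
    interval_cases k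
    · left
      rw [hV, mem_image]
      exact ⟨(0, 0), mem_product.2 ⟨h0H, h0H⟩, by simp [hmf]⟩
    · left
      rw [hV, mem_image]
      exact ⟨(f 0, 0), mem_product.2 ⟨hfS 0, h0H⟩, by simp [hmf]⟩
    · left
      rw [hV, mem_image]
      exact ⟨(f 0, f 1), mem_product.2 ⟨hfS 0, hfS 1⟩, by simp [hmf, Fin.sum_univ_two]⟩
    · right
      have hex : ∀ i : Fin 3, ∃ (x : ℕ) (B : Core), 0 < x ∧ f i = x ^ 3 * cv B := fun i =>
        exists_core (hf i)
      choose x t hx hxt using hex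
      have hcv : ∀ i, cv (t i) ≤ N := fun i =>
        (Nat.le_mul_of_pos_left _ (pow_pos (hx i) 3)).trans ((hxt i) ▸ hle i)
      have hval : m = ∑ i, cv (t i) * x i ^ 3 := by
        rw [hmf]
        exact sum_congr rfl fun i _ => by rw [hxt i, mul_comm]
      rw [hU, mem_biUnion]
      refine ⟨t, Fintype.mem_piFinset.2 fun i => mem_product.2
        ⟨mem_range.2 (fst_lt (hcv i)).1, mem_range.2 (fst_lt (hcv i)).2⟩, ?_⟩
      rw [mem_image]
      refine ⟨x, ?_, hval.symm⟩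
      rw [hbx, mem_filter]
      refine ⟨Fintype.mem_piFinset.2 fun i => mem_Icc.2 ⟨hx i, mem_Xr.2 ?_⟩, by rw [← hval, hmn]⟩
      rw [← hxt i]
      exact hle i
  have h1 : {m : ℕ | m < N ∧ m % M = n ∧ m ∈ SumPf 3}.ncard ≤ V.card + U.card := by
    refine (Set.ncard_le_ncard hsub (V ∪ U).finite_toSet).trans ?_
    rw [Set.ncard_coe_finset]
    exact card_union_le _ _
  have h2 : (V.card : ℝ) ≤ (1 + (N : ℝ) ^ (1 / 3 : ℝ) * ∑' B, wt B) ^ 2 := by
    have h3 : V.card ≤ H.card * H.card := by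
      refine card_image_le.trans ?_
      rw [card_product]
    calc (V.card : ℝ) ≤ (H.card : ℝ) * H.card := by exact_mod_cast h3
      _ = (H.card : ℝ) ^ 2 := by ring
      _ ≤ _ := pow_le_pow_left₀ (Nat.cast_nonneg _) hHcard 2
  have h4 : (U.card : ℝ) ≤ ∑' t : Fin 3 → Core, (box M N n t : ℝ) := by
    have h5 : U.card ≤ ∑ t ∈ Fintype.piFinset fun _ : Fin 3 => F, box M N n t := by
      refine card_biUnion_le.trans (sum_le_sum fun t _ => ?_)
      exact card_image_le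
    calc (U.card : ℝ) ≤ ∑ t ∈ Fintype.piFinset fun _ : Fin 3 => F, (box M N n t : ℝ) := by
          exact_mod_cast h5
      _ ≤ _ := (box_summable M N n).sum_le_tsum _ fun t _ => Nat.cast_nonneg _
  calc ({m : ℕ | m < N ∧ m % M = n ∧ m ∈ SumPf 3}.ncard : ℝ) ≤ V.card + U.card := by
        exact_mod_cast h1
    _ ≤ _ := add_le_add h2 h4

theorem tendsto_sq_div (W : ℝ) :
    Tendsto (fun N : ℕ => (1 + (N : ℝ) ^ (1 / 3 : ℝ) * W) ^ 2 / N) atTop (𝓝 0) := by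
  have h1 : Tendsto (fun N : ℕ => (N : ℝ) ^ (-(1 / 2) : ℝ)) atTop (𝓝 0) :=
    (tendsto_rpow_neg_atTop (by norm_num)).comp tendsto_natCast_atTop_atTop
  have h2 : Tendsto (fun N : ℕ => (N : ℝ) ^ (-(1 / 6) : ℝ)) atTop (𝓝 0) :=
    (tendsto_rpow_neg_atTop (by norm_num)).comp tendsto_natCast_atTop_atTop
  have h3 : Tendsto (fun N : ℕ => ((N : ℝ) ^ (-(1 / 2) : ℝ) + (N : ℝ) ^ (-(1 / 6) : ℝ) * W) ^ 2)
      atTop (𝓝 ((0 + 0 * W) ^ 2)) := (h1.add (h2.mul_const W)).pow 2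
  rw [zero_mul, add_zero, zero_pow (by norm_num)] at h3
  refine h3.congr' ?_
  filter_upwards [eventually_gt_atTop 0] with N hN
  have hN' : (0 : ℝ) < N := by exact_mod_cast hN
  have e1 : (N : ℝ) ^ (-(1 / 6) : ℝ) = (N : ℝ) ^ (1 / 3 : ℝ) * (N : ℝ) ^ (-(1 / 2) : ℝ) := by
    rw [← Real.rpow_add hN']; norm_num
  have e2 : ((N : ℝ) ^ (-(1 / 2) : ℝ)) ^ 2 = (N : ℝ)⁻¹ := by
    rw [← Real.rpow_natCast, ← Real.rpow_mul hN'.le, ← Real.rpow_neg_one]; norm_num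
  rw [e1, show (N : ℝ) ^ (-(1 / 2) : ℝ) + (N : ℝ) ^ (1 / 3 : ℝ) * (N : ℝ) ^ (-(1 / 2) : ℝ) * W =
    (N : ℝ) ^ (-(1 / 2) : ℝ) * (1 + (N : ℝ) ^ (1 / 3 : ℝ) * W) by ring, mul_pow, e2]
  ring

theorem limit {M n : ℕ} (hM : 0 < M) (hn : n < M) {e : ℝ} (he : 0 < e) :
    ∀ᶠ N : ℕ in atTop, ({m : ℕ | m < N ∧ m % M = n ∧ m ∈ SumPf 3}.ncard : ℝ) ≤
      (∑' t : Fin 3 → Core, (∏ i, wt (t i)) * ((loc M n t : ℝ) / (M : ℝ) ^ 3) + e) * N := by
  have hw := hasSum_tr (fun B => (wt_pos B).le) summable_wt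
  have h1 : Tendsto (fun N : ℕ => ∑' t : Fin 3 → Core, (box M N n t : ℝ) / N) atTop
      (𝓝 (∑' t : Fin 3 → Core, (∏ i, wt (t i)) * ((loc M n t : ℝ) / (M : ℝ) ^ 3))) := by
    refine tendsto_tsum_of_dominated_convergence hw.summable (fun t => box_tendsto hM hn t) ?_
    refine Eventually.of_forall fun N t => ?_
    rw [Real.norm_of_nonneg (by positivity)]
    rcases Nat.eq_zero_or_pos N with rfl | hN
    · rw [Nat.cast_zero, div_zero]
      exact prod_nonneg fun i _ => (wt_pos _).le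
    · have hN' : (0 : ℝ) < N := by exact_mod_cast hN
      rw [div_le_iff₀ hN', mul_comm]
      exact box_le M N n t
  have h2 := (tendsto_sq_div (∑' B, wt B)).add h1
  rw [zero_add] at h2
  have h3 := h2.eventually (ge_mem_nhds (lt_add_of_pos_right _ he))
  filter_upwards [h3, eventually_gt_atTop 0] with N hN hN0
  have hN' : (0 : ℝ) < N := by exact_mod_cast hN0
  refine (ncard_le M N n).trans ?_
  have h4 := mul_le_mul_of_nonneg_right hN hN'.le
  refine le_trans (le_of_eq ?_) h4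
  rw [add_mul, div_mul_cancel₀ _ hN'.ne', tsum_div_const, div_mul_cancel₀ _ hN'.ne']

end Pool.Agent.helper62.PW
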