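import Mathlib
import Pool.Agent.helper62.PW.LocA

set_option autoImplicit false

/-!
# PW-Crt: the Chinese remainder theorem

PROOFS. Let `P` be a finite set of primes, `M = MP P`. The ring isomorphism
`e : ZMod M ≃+* ∀ p : P, ZMod p` (`ZMod.prodEquivPi`, the primes are pairwise coprime; `MP P` is the
product over the subtype, `Finset.prod_coe_sort`) satisfies `e (n : ZMod M) p = (n : ZMod p)`.
`card_Om`: `Om P` corresponds (`n ↦ (n : ZMod M)`, bijection from `range M`) to the elements of the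
product all of whose components are non-cubes; so its cardinality is the product of the numbers
`2 (p - 1) / 3 = p * d0 p` (`card_noncube`, `Fintype.card_pi` / `Nat.card_pi`).
`sum_loc`: `∑_{n ∈ Om P} loc M n t` is the number of `r : Fin 3 → ZMod M` such that the class of
`∑ cv (t i) r i ^ 3` is not a cube modulo any `p ∈ P`; by `e` these `r` correspond to the families
`(x_p)_{p ∈ P}`, `x_p : Fin 3 → ZMod p`, with `∑ cv (t i) (x_p i) ^ 3` not a cube for all `p`:
`∏ nc3 p` of them. Divide by `M ^ 3 = ∏ p ^ 3`.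
-/

namespace Pool.Agent.helper62.PW

open Finset

variable {P : Finset ℕ}

theorem MP_pos (hP : ∀ p ∈ P, p.Prime) : 0 < MP P := by
  unfold MP
  exact Finset.prod_pos fun p hp => (hP p hp).pos

private theorem card_range_zmod (M : ℕ) [NeZero M] (Q : ZMod M → Prop)
    (S : Finset ℕ) (hS : ∀ n, n ∈ S ↔ n < M ∧ Q (n : ZMod M)) :
    S.card = Nat.card {z : ZMod M // Q z} := by
  classical
  rw [Nat.card_eq_fintype_card, Fintype.card_subtype]
  refine Finset.card_bij (fun n _ => (n : ZMod M)) ?_ ?_ ?_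
  · intro n hn
    simp only [mem_filter, mem_univ, true_and]
    exact ((hS n).1 hn).2
  · intro a ha b hb hab
    have h1 := ((hS a).1 ha).1
    have h2 := ((hS b).1 hb).1
    have h3 := (ZMod.natCast_eq_natCast_iff' a b M).1 hab
    rwa [Nat.mod_eq_of_lt h1, Nat.mod_eq_of_lt h2] at h3
  · intro z hz
    simp only [mem_filter, mem_univ, true_and] at hz
    refine ⟨z.val, (hS _).2 ⟨ZMod.val_lt z, ?_⟩, ZMod.natCast_zmod_val z⟩
    rwa [ZMod.natCast_zmod_val z]

private theorem card_pi_subtype {ι : Type*} [Fintype ι] {α : Type*} {β : ι → Type*}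
    (e : α ≃ ∀ i, β i) (R : ∀ i, β i → Prop) :
    Nat.card {z : α // ∀ i, R i (e z i)} = ∏ i, Nat.card {y : β i // R i y} := by
  rw [← Nat.card_pi]
  exact Nat.card_congr ((e.subtypeEquiv fun z => Iff.rfl).trans Equiv.subtypePiEquivPi)

private theorem MP_coe (P : Finset ℕ) : MP P = ∏ p : P, (p : ℕ) := by
  unfold MP
  exact (Finset.prod_coe_sort P (fun p => p)).symm

private theorem cop (hP : ∀ p ∈ P, p.Prime) :
    Pairwise (Function.onFun Nat.Coprime fun p : P => (p : ℕ)) := by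
  intro p q hpq
  exact (Nat.coprime_primes (hP p p.2) (hP q q.2)).2 fun h => hpq (Subtype.ext h)

private theorem mem_Om (n : ℕ) :
    n ∈ Om P ↔ n < MP P ∧ ∀ p ∈ P, ∀ w : ZMod p, w ^ 3 ≠ (n : ZMod p) := by
  unfold Om
  simp only [mem_filter, mem_range]

theorem card_Om (hP : ∀ p ∈ P, p.Prime ∧ p % 3 = 1) :
    ((Om P).card : ℝ) = (MP P : ℝ) * ∏ p ∈ P, d0 p := by
  have hP' : ∀ p ∈ P, p.Prime := fun p hp => (hP p hp).1
  have hM : 0 < ∏ p : P, (p : ℕ) := by rw [← MP_coe]; exact MP_pos hP'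
  haveI : NeZero (∏ p : P, (p : ℕ)) := ⟨hM.ne'⟩
  let e := ZMod.prodEquivPi (fun p : P => (p : ℕ)) (cop hP')
  have h1 : (Om P).card =
      Nat.card {z : ZMod (∏ p : P, (p : ℕ)) // ∀ p : P, ∀ w : ZMod (p : ℕ), w ^ 3 ≠ e z p} := by
    refine card_range_zmod _ _ _ fun n => ?_
    rw [mem_Om, MP_coe]
    refine and_congr_right fun _ => ?_
    constructor
    · intro h p w
      rw [map_natCast, Pi.natCast_apply]
      exact h p p.2 w
    · intro h p hp w
      have := h ⟨p, hp⟩ w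
      rwa [map_natCast, Pi.natCast_apply] at this
  have h2 := card_pi_subtype e.toEquiv (fun (p : P) (y : ZMod (p : ℕ)) => ∀ w, w ^ 3 ≠ y)
  have h3 : (Om P).card = ∏ p : P, Nat.card {y : ZMod (p : ℕ) // ∀ w, w ^ 3 ≠ y} := by
    rw [h1]; exact h2
  rw [h3, MP, Nat.cast_prod, Nat.cast_prod, ← Finset.prod_mul_distrib,
    ← Finset.prod_coe_sort P (fun p => (p : ℝ) * d0 p)]
  refine Finset.prod_congr rfl fun p _ => ?_
  haveI : Fact (p : ℕ).Prime := ⟨hP' p p.2⟩
  have h4 := card_noncube (p := (p : ℕ)) (hP p p.2).2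
  have h5 : 1 ≤ (p : ℕ) := (hP' p p.2).pos
  have h6 : (3 : ℝ) * (Nat.card {y : ZMod (p : ℕ) // ∀ w : ZMod (p : ℕ), w ^ 3 ≠ y} : ℝ) =
      2 * (((p : ℕ) : ℝ) - 1) := by
    have := congrArg (Nat.cast : ℕ → ℝ) h4
    push_cast [Nat.cast_sub h5] at this
    exact this
  have h7 : ((p : ℕ) : ℝ) ≠ 0 := by
    have : (0 : ℝ) < ((p : ℕ) : ℝ) := by exact_mod_cast h5
    exact this.ne'
  unfold d0
  field_simp
  linarith

theorem sum_loc (hP : ∀ p ∈ P, p.Prime ∧ p % 3 = 1) (t : Fin 3 → Core) :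
    ∑ n ∈ Om P, (loc (MP P) n t : ℝ) / (MP P : ℝ) ^ 3 = ∏ p ∈ P, dl p t := by
  classical
  have hP' : ∀ p ∈ P, p.Prime := fun p hp => (hP p hp).1
  have hM : 0 < ∏ p : P, (p : ℕ) := by rw [← MP_coe]; exact MP_pos hP'
  haveI : NeZero (∏ p : P, (p : ℕ)) := ⟨hM.ne'⟩
  let e := ZMod.prodEquivPi (fun p : P => (p : ℕ)) (cop hP')
  have hmem : ∀ n, n ∈ Om P ↔ n < (∏ p : P, (p : ℕ)) ∧
      ∀ p : P, ∀ w : ZMod (p : ℕ), w ^ 3 ≠ e (n : ZMod (∏ p : P, (p : ℕ))) p := by
    intro n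
    rw [mem_Om, MP_coe]
    refine and_congr_right fun _ => ?_
    constructor
    · intro h p w
      rw [map_natCast, Pi.natCast_apply]
      exact h p p.2 w
    · intro h p hp w
      have := h ⟨p, hp⟩ w
      rwa [map_natCast, Pi.natCast_apply] at this
  -- the form
  let F : (Fin 3 → ZMod (∏ p : P, (p : ℕ))) → ZMod (∏ p : P, (p : ℕ)) :=
    fun r => ∑ i, (cv (t i) : ZMod (∏ p : P, (p : ℕ))) * r i ^ 3
  let Q : ZMod (∏ p : P, (p : ℕ)) → Prop := fun z => ∀ p : P, ∀ w : ZMod (p : ℕ), w ^ 3 ≠ e z p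
  have h1 : ∑ n ∈ Om P, loc (∏ p : P, (p : ℕ)) n t =
      Nat.card {r : Fin 3 → ZMod (∏ p : P, (p : ℕ)) // Q (F r)} := by
    rw [Nat.card_eq_fintype_card, Fintype.card_subtype]
    rw [Finset.card_eq_sum_card_fiberwise (f := fun r => (F r).val) (t := Om P)]
    · refine Finset.sum_congr rfl fun n hn => ?_
      unfold loc
      rw [Nat.card_eq_fintype_card, Fintype.card_subtype]
      congr 1
      ext r
      simp only [mem_filter, mem_univ, true_and]
      have hn' := (hmem n).1 hn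
      constructor
      · intro h
        have h' : F r = (n : ZMod (∏ p : P, (p : ℕ))) := h
        refine ⟨?_, ?_⟩
        · rw [h']; exact hn'.2
        · rw [h', ZMod.val_natCast, Nat.mod_eq_of_lt hn'.1]
      · rintro ⟨-, h⟩
        change F r = (n : ZMod (∏ p : P, (p : ℕ)))
        rw [← h, ZMod.natCast_zmod_val]
    · intro r hr
      simp only [coe_filter, mem_univ, true_and, Set.mem_setOf_eq] at hr
      rw [Finset.mem_coe, hmem]
      refine ⟨ZMod.val_lt _, ?_⟩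
      rw [ZMod.natCast_zmod_val]
      exact hr
  have h2 : Nat.card {r : Fin 3 → ZMod (∏ p : P, (p : ℕ)) // Q (F r)} =
      ∏ p : P, nc3 (p : ℕ) (fun i => (cv (t i) : ZMod (p : ℕ))) := by
    let e' : (Fin 3 → ZMod (∏ p : P, (p : ℕ))) ≃ ∀ p : P, (Fin 3 → ZMod (p : ℕ)) :=
      (Equiv.piCongrRight fun _ => e.toEquiv).trans
        (Equiv.piComm fun (_ : Fin 3) (p : P) => ZMod (p : ℕ))
    have h3 := card_pi_subtype e' (fun (p : P) (x : Fin 3 → ZMod (p : ℕ)) =>
      ∀ w : ZMod (p : ℕ), w ^ 3 ≠ ∑ i, (cv (t i) : ZMod (p : ℕ)) * x i ^ 3)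
    have h4 : ∀ r p, e (F r) p = ∑ i, (cv (t i) : ZMod (p : ℕ)) * (e' r p i) ^ 3 := by
      intro r p
      simp only [F, map_sum, map_mul, map_pow, map_natCast, Finset.sum_apply, Pi.mul_apply,
        Pi.pow_apply, Pi.natCast_apply]
      rfl
    unfold nc3
    rw [← h3]
    refine Nat.card_congr (Equiv.subtypeEquivRight fun r => ?_)
    exact forall_congr' fun p => by rw [← h4]
  have h5 : ∑ n ∈ Om P, loc (MP P) n t =
      ∏ p : P, nc3 (p : ℕ) (fun i => (cv (t i) : ZMod (p : ℕ))) := by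
    rw [← h2, ← h1, MP_coe]
  rw [← Finset.sum_div, ← Nat.cast_sum, h5, Nat.cast_prod, MP, Nat.cast_prod,
    ← Finset.prod_pow, ← Finset.prod_coe_sort P (fun p => (p : ℝ) ^ 3), ← Finset.prod_div_distrib,
    ← Finset.prod_coe_sort P (fun p => dl p t)]
  rfl

end Pool.Agent.helper62.PW
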