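import Mathlib
import Pool.Agent.helper45.T3.Zeta
import Pool.Agent.helper62.PW.Defs

set_option autoImplicit false

/-!
# PW-Split: many primes modulo which all small primes are cubes

PROOF. Let `K` be the splitting field over `ℚ` of `(X ^ 2 + X + 1) * ∏_{l ≤ Y prime} (X ^ 3 - l)`, a
number field. If `v` is a prime of `K` whose norm is a prime number `p ≠ 3`, then `𝓞 K / v` has `p`
elements, so there is a ring homomorphism `𝓞 K → ZMod p`; the images of the roots of `X ^ 2 + X + 1`
and `X ^ 3 - l` (which are algebraic integers) show that `p ≡ 1` modulo `3` and that `l` is a cube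
modulo `p`: `p ∈ QY Y`.
Suppose that `∑_{p ∈ QY Y} 1 / p` converges. There are at most `[K : ℚ]` primes `v` with the given
norm `p`, so `∑_{v, N v prime} 1 / N v` converges, and `∑_v 1 / N v` converges
(`summable_nonprime`). By `xv_le` and `ZI_le_exp` the function `ZI K s` is
bounded for `s > 1`, so `(s - 1) ZI K s` tends to `0` for `s → 1`, contradicting `tendsto_ZI`.
`exists_P`: take a minimal finite set of primes `> P0` in `QY Y` with the sum `≥ L`.
-/

namespace Pool.Agent.helper62.PW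

open Finset

section Field

open NumberField Filter Topology IsDedekindDomain Pool.Agent.helper45.T3

/-- the sum over the primes of degree one diverges -/
theorem not_summable_deg_one (K : Type*) [Field K] [NumberField K] :
    ¬ Summable (fun v : HeightOneSpectrum (𝓞 K) =>
      if (Ideal.absNorm v.asIdeal).Prime then (Ideal.absNorm v.asIdeal : ℝ)⁻¹ else 0) := by
  intro h
  have hall : Summable (fun v : HeightOneSpectrum (𝓞 K) => (Ideal.absNorm v.asIdeal : ℝ)⁻¹) := by
    refine (h.add (summable_nonprime (K := K))).congr fun v => ?_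
    split_ifs <;> simp
  set S := ∑' v : HeightOneSpectrum (𝓞 K), (Ideal.absNorm v.asIdeal : ℝ)⁻¹ with hS
  set B := Real.exp (S + 2 * ∑' v : HeightOneSpectrum (𝓞 K), xv 2 v) with hB
  have hle : ∀ s : ℝ, 1 < s → (s - 1) * ZI K s ≤ (s - 1) * B := by
    intro s hs
    refine mul_le_mul_of_nonneg_left ?_ (by linarith)
    refine (ZI_le_exp hs).trans (Real.exp_le_exp.2 ?_)
    have h1 : ∑' v : HeightOneSpectrum (𝓞 K), xv s v ≤ S :=
      Summable.tsum_le_tsum (fun v => xv_le hs v) (summable_xv hs) hall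
    linarith
  have h0 : Tendsto (fun s : ℝ => (s - 1) * B) (𝓝[>] 1) (𝓝 ((1 - 1) * B)) := by
    refine Tendsto.mono_left ?_ nhdsWithin_le_nhds
    exact ((continuous_id.sub continuous_const).mul continuous_const).tendsto (1 : ℝ)
  rw [sub_self, zero_mul] at h0
  have h2 := le_of_tendsto_of_tendsto (tendsto_ZI K) h0
    (by filter_upwards [self_mem_nhdsWithin] with s hs using hle s hs)
  exact absurd (dedekindZeta_residue_pos K) (not_lt.2 h2)

/-- a prime norm is the residue characteristic -/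
lemma rc_eq {K : Type*} [Field K] [NumberField K] (v : HeightOneSpectrum (𝓞 K))
    (h : (Ideal.absNorm v.asIdeal).Prime) : rc v = Ideal.absNorm v.asIdeal := by
  have hp := rc_prime v
  have hl : v.asIdeal.LiesOver (Ideal.span {(rc v : ℤ)}) := Int.liesOver_span_absNorm v.asIdeal
  have e := Ideal.absNorm_eq_pow_inertiaDeg' v.asIdeal hp
  rw [e] at h ⊢
  rw [Nat.Prime.eq_one_of_pow h, pow_one]

/-- if the norms of all but finitely many primes of degree one are in `A`, the sum over `A`
diverges -/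
theorem not_summable_of_norms {K : Type*} [Field K] [NumberField K] (A : Set ℕ) (F : Finset ℕ)
    (hA : ∀ v : HeightOneSpectrum (𝓞 K), (Ideal.absNorm v.asIdeal).Prime →
      Ideal.absNorm v.asIdeal ∉ F → Ideal.absNorm v.asIdeal ∈ A) :
    ¬ Summable (A.indicator fun p : ℕ => (p : ℝ)⁻¹) := by
  intro hs
  refine not_summable_deg_one K ?_
  set h : HeightOneSpectrum (𝓞 K) → ℝ := fun v =>
    if (Ideal.absNorm v.asIdeal).Prime then (Ideal.absNorm v.asIdeal : ℝ)⁻¹ else 0 with hh
  set a : ℕ → ℝ := fun p => A.indicator (fun p : ℕ => (p : ℝ)⁻¹) p +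
    (F : Set ℕ).indicator (fun p : ℕ => (p : ℝ)⁻¹) p with ha
  have has : Summable a := hs.add (summable_of_ne_finset_zero (s := F) fun p hp =>
    Set.indicator_of_notMem (by simpa using hp) _)
  have ha0 : ∀ p, 0 ≤ a p := fun p => add_nonneg
    (Set.indicator_nonneg (fun _ _ => by positivity) _)
    (Set.indicator_nonneg (fun _ _ => by positivity) _)
  have hh0 : ∀ v, 0 ≤ h v := by
    intro v
    rw [hh]
    simp only
    split_ifs
    · positivity
    · exact le_rfl
  have hle : ∀ v, h v ≤ a (rc v) := by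
    intro v
    rw [hh]
    simp only
    split_ifs with hp
    · rw [rc_eq v hp]
      by_cases hF : Ideal.absNorm v.asIdeal ∈ F
      · have h1 : (F : Set ℕ).indicator (fun p : ℕ => (p : ℝ)⁻¹) (Ideal.absNorm v.asIdeal) =
            ((Ideal.absNorm v.asIdeal : ℕ) : ℝ)⁻¹ := Set.indicator_of_mem (by simpa using hF) _
        rw [ha]
        simp only
        rw [h1]
        have h2 : 0 ≤ A.indicator (fun p : ℕ => (p : ℝ)⁻¹) (Ideal.absNorm v.asIdeal) :=
          Set.indicator_nonneg (fun _ _ => by positivity) _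
        linarith
      · have h1 : A.indicator (fun p : ℕ => (p : ℝ)⁻¹) (Ideal.absNorm v.asIdeal) =
            ((Ideal.absNorm v.asIdeal : ℕ) : ℝ)⁻¹ := Set.indicator_of_mem (hA v hp hF) _
        rw [ha]
        simp only
        rw [h1]
        have h2 : 0 ≤ (F : Set ℕ).indicator (fun p : ℕ => (p : ℝ)⁻¹) (Ideal.absNorm v.asIdeal) :=
          Set.indicator_nonneg (fun _ _ => by positivity) _
        linarith
    · exact ha0 _
  have hfin : ∀ p : ℕ, Finite {v : HeightOneSpectrum (𝓞 K) // rc v = p} ∧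
      Nat.card {v : HeightOneSpectrum (𝓞 K) // rc v = p} ≤ Module.finrank ℤ (𝓞 K) := by
    intro p
    by_cases hp : p.Prime
    · obtain ⟨h1, h2⟩ := ncard_primesOver_le (K := K) hp
      have hm : ∀ v : {v : HeightOneSpectrum (𝓞 K) // rc v = p},
          v.1.asIdeal ∈ (Ideal.span {(p : ℤ)}).primesOver (𝓞 K) := by
        rintro ⟨v, rfl⟩
        exact mem_primesOver_rc v
      have hinj : Function.Injective (fun v : {v : HeightOneSpectrum (𝓞 K) // rc v = p} =>
          (⟨v.1.asIdeal, hm v⟩ : (Ideal.span {(p : ℤ)}).primesOver (𝓞 K))) := by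
        intro v w h
        exact Subtype.ext (HeightOneSpectrum.ext (congrArg Subtype.val h))
      have := h1.to_subtype
      exact ⟨Finite.of_injective _ hinj, (Nat.card_le_card_of_injective _ hinj).trans h2⟩
    · have : IsEmpty {v : HeightOneSpectrum (𝓞 K) // rc v = p} :=
        ⟨fun v => hp (v.2 ▸ rc_prime v.1)⟩
      exact ⟨inferInstance, by rw [Nat.card_of_isEmpty]; exact Nat.zero_le _⟩
  rw [← (Equiv.sigmaFiberEquiv (fun v : HeightOneSpectrum (𝓞 K) => rc v)).summable_iff,
    summable_sigma_of_nonneg (by intro p; exact hh0 _)]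
  refine ⟨fun p => ?_, ?_⟩
  · have := (hfin p).1
    exact Summable.of_finite
  · have hbd : ∀ p : ℕ, ∑' v : {v : HeightOneSpectrum (𝓞 K) // rc v = p},
        (h ∘ (Equiv.sigmaFiberEquiv (fun v : HeightOneSpectrum (𝓞 K) => rc v))) ⟨p, v⟩ ≤
        (Module.finrank ℤ (𝓞 K) : ℝ) * a p := by
      intro p
      have := (hfin p).1
      let _ := Fintype.ofFinite {v : HeightOneSpectrum (𝓞 K) // rc v = p}
      rw [tsum_fintype]
      calc ∑ v : {v : HeightOneSpectrum (𝓞 K) // rc v = p},
            (h ∘ (Equiv.sigmaFiberEquiv (fun v : HeightOneSpectrum (𝓞 K) => rc v))) ⟨p, v⟩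
          ≤ ∑ _v : {v : HeightOneSpectrum (𝓞 K) // rc v = p}, a p := by
            refine Finset.sum_le_sum fun v _ => ?_
            have h := hle v.1
            rw [v.2] at h
            exact h
        _ = (Nat.card {v : HeightOneSpectrum (𝓞 K) // rc v = p} : ℝ) * a p := by
            rw [Finset.sum_const, nsmul_eq_mul, Finset.card_univ, Nat.card_eq_fintype_card]
        _ ≤ _ := by
            refine mul_le_mul_of_nonneg_right ?_ (ha0 p)
            exact_mod_cast (hfin p).2
    refine Summable.of_nonneg_of_le (fun p => tsum_nonneg fun v => hh0 _) hbd ?_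
    exact has.mul_left _

/-- a prime of degree one gives a homomorphism to `ZMod p` -/
lemma exists_hom {K : Type*} [Field K] [NumberField K] (v : HeightOneSpectrum (𝓞 K))
    (h : (Ideal.absNorm v.asIdeal).Prime) :
    Nonempty (𝓞 K →+* ZMod (Ideal.absNorm v.asIdeal)) := by
  have hc : Nat.card (𝓞 K ⧸ v.asIdeal) = Ideal.absNorm v.asIdeal := by
    rw [Ideal.absNorm_apply, Submodule.cardQuot_apply]
  have hne : Nat.card (𝓞 K ⧸ v.asIdeal) ≠ 0 := by
    rw [hc]; exact h.ne_zero
  have hfin : Finite (𝓞 K ⧸ v.asIdeal) := Nat.finite_of_card_ne_zero hne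
  let _ := Fintype.ofFinite (𝓞 K ⧸ v.asIdeal)
  have e := ZMod.ringEquivOfPrime (𝓞 K ⧸ v.asIdeal) h (by rw [← Nat.card_eq_fintype_card, hc])
  exact ⟨e.symm.toRingHom.comp (Ideal.Quotient.mk v.asIdeal)⟩

lemma exists_int_root {K : Type*} [Field K] [NumberField K] (w : K) (hw : w ^ 2 + w + 1 = 0) :
    ∃ w : 𝓞 K, w ^ 2 + w + 1 = 0 := by
  have hint : IsIntegral ℤ w := by
    refine ⟨Polynomial.X ^ 2 + Polynomial.X + 1, by monicity!, ?_⟩
    simpa using hw
  refine ⟨⟨w, hint⟩, ?_⟩
  apply RingOfIntegers.ext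
  simpa using hw

lemma exists_int_cbrt {K : Type*} [Field K] [NumberField K] (l : ℕ) (w : K)
    (hw : w ^ 3 = (l : K)) : ∃ w : 𝓞 K, w ^ 3 = (l : 𝓞 K) := by
  have hint : IsIntegral ℤ w := by
    refine ⟨Polynomial.X ^ 3 - Polynomial.C (l : ℤ), by monicity!, ?_⟩
    simpa using sub_eq_zero.2 hw
  refine ⟨⟨w, hint⟩, ?_⟩
  apply RingOfIntegers.ext
  simpa using hw

/-- a number field with the cube roots of the small primes and of unity -/
lemma exists_field (Y : ℕ) : ∃ (K : Type) (_ : Field K) (_ : NumberField K),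
    (∃ w : 𝓞 K, w ^ 2 + w + 1 = 0) ∧
    ∀ l : ℕ, l.Prime → l ≤ Y → ∃ r : 𝓞 K, r ^ 3 = (l : 𝓞 K) := by
  classical
  let f : Polynomial ℚ := (Polynomial.X ^ 2 + Polynomial.X + 1) *
    ∏ l ∈ (range (Y + 1)).filter Nat.Prime, (Polynomial.X ^ 3 - Polynomial.C (l : ℚ))
  have hsp : (f.map (algebraMap ℚ f.SplittingField)).Splits := Polynomial.SplittingField.splits f
  have hf1 : (Polynomial.X ^ 2 + Polynomial.X + 1 : Polynomial ℚ).Monic := by monicity!
  have hf3 : ∀ l : ℕ, (Polynomial.X ^ 3 - Polynomial.C (l : ℚ) : Polynomial ℚ).Monic := by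
    intro l
    monicity!
  have hf2 : (∏ l ∈ (range (Y + 1)).filter Nat.Prime,
      (Polynomial.X ^ 3 - Polynomial.C (l : ℚ)) : Polynomial ℚ).Monic :=
    Polynomial.monic_prod_of_monic _ _ fun l _ => hf3 l
  have hf : f ≠ 0 := (hf1.mul hf2).ne_zero
  have hdvd : ∀ g : Polynomial ℚ, g ∣ f → (g.map (algebraMap ℚ f.SplittingField)).Splits := by
    intro g hg
    refine hsp.of_dvd ?_ (Polynomial.map_dvd _ hg)
    rw [Polynomial.map_ne_zero_iff (algebraMap ℚ f.SplittingField).injective]
    exact hf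
  have hnf : NumberField f.SplittingField := ⟨⟩
  refine ⟨f.SplittingField, inferInstance, hnf, ?_, ?_⟩
  · have h1 := hdvd (Polynomial.X ^ 2 + Polynomial.X + 1) ⟨_, rfl⟩
    obtain ⟨w, hw⟩ := Polynomial.Splits.exists_eval_eq_zero h1 (by
      rw [Polynomial.degree_map]
      have : (Polynomial.X ^ 2 + Polynomial.X + 1 : Polynomial ℚ).degree = 2 := by compute_degree!
      rw [this]
      norm_num)
    exact exists_int_root w (by simpa using hw)
  · intro l hl hlY
    have hmem : l ∈ (range (Y + 1)).filter Nat.Prime := by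
      simp [hl, Nat.lt_succ_of_le hlY]
    have hd1 : (Polynomial.X ^ 3 - Polynomial.C (l : ℚ) : Polynomial ℚ) ∣
        ∏ l ∈ (range (Y + 1)).filter Nat.Prime, (Polynomial.X ^ 3 - Polynomial.C (l : ℚ)) :=
      Finset.dvd_prod_of_mem (fun l : ℕ => (Polynomial.X ^ 3 - Polynomial.C (l : ℚ) : Polynomial ℚ))
        hmem
    have h1 := hdvd (Polynomial.X ^ 3 - Polynomial.C (l : ℚ)) (Dvd.dvd.mul_left hd1 _)
    obtain ⟨w, hw⟩ := Polynomial.Splits.exists_eval_eq_zero h1 (by
      rw [Polynomial.degree_map]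
      have : (Polynomial.X ^ 3 - Polynomial.C (l : ℚ) : Polynomial ℚ).degree = 3 := by
        compute_degree!
      rw [this]
      norm_num)
    refine exists_int_cbrt l w ?_
    have : w ^ 3 - (l : f.SplittingField) = 0 := by simpa using hw
    exact sub_eq_zero.1 this

end Field

/-- a root of `X ^ 2 + X + 1` forces `p ≡ 1` modulo `3` -/
lemma mod_three_of_root {p : ℕ} (hp : p.Prime) (h3 : p ≠ 3) (w : ZMod p) (hw : w ^ 2 + w + 1 = 0) :
    p % 3 = 1 := by
  have : Fact p.Prime := ⟨hp⟩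
  have hw3 : w ^ 3 = 1 := by
    have : w ^ 3 - 1 = (w - 1) * (w ^ 2 + w + 1) := by ring
    rw [hw, mul_zero, sub_eq_zero] at this
    exact this
  have hw0 : w ≠ 0 := by
    rintro rfl
    simp at hw
  have hmod : p % 3 ≠ 0 := by
    intro h
    have h2 : 3 ∣ p := Nat.dvd_of_mod_eq_zero h
    rcases (Nat.dvd_prime hp).1 h2 with h4 | h4
    · omega
    · exact h3 h4.symm
  by_contra hne
  have h2 : p % 3 = 2 := by omega
  have hf := ZMod.pow_card_sub_one_eq_one hw0
  obtain ⟨k, hk⟩ : ∃ k, p - 1 = 3 * k + 1 := ⟨p / 3, by omega⟩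
  rw [hk, pow_succ, pow_mul, hw3, one_pow, one_mul] at hf
  subst hf
  have h4 : ((3 : ℕ) : ZMod p) = 0 := by
    push_cast
    linear_combination hw
  rw [ZMod.natCast_eq_zero_iff] at h4
  rcases (Nat.dvd_prime Nat.prime_three).1 h4 with h5 | h5
  · exact hp.one_lt.ne' h5
  · exact h3 h5

theorem QY_not_summable (Y : ℕ) : ¬ Summable (fun p : QY Y => 1 / ((p : ℕ) : ℝ)) := by
  obtain ⟨K, _, _, ⟨w, hw⟩, hr⟩ := exists_field Y
  have h := not_summable_of_norms (K := K) (QY Y) {3} (by
    intro v hv hF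
    obtain ⟨φ⟩ := exists_hom v hv
    refine ⟨hv, ?_, ?_⟩
    · refine mod_three_of_root hv (by simpa using hF) (φ w) ?_
      have := congrArg φ hw
      simpa using this
    · intro l hl hlY
      obtain ⟨r, hr⟩ := hr l hl hlY
      refine ⟨φ r, ?_⟩
      have := congrArg φ hr
      simpa using this)
  intro hs
  apply h
  rw [← summable_subtype_iff_indicator]
  refine hs.congr fun p => ?_
  simp

theorem exists_P (Y P0 : ℕ) {L : ℝ} (hL : 0 ≤ L) : ∃ P : Finset ℕ,
    (∀ p ∈ P, p ∈ QY Y ∧ P0 < p) ∧ L ≤ ∑ p ∈ P, 1 / (p : ℝ) ∧ ∑ p ∈ P, 1 / (p : ℝ) ≤ L + 1 := by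
  classical
  -- a finite set with a large sum
  have hbig : ∃ S : Finset ℕ, (∀ p ∈ S, p ∈ QY Y ∧ P0 < p) ∧ L ≤ ∑ p ∈ S, 1 / (p : ℝ) := by
    by_contra hcon
    push Not at hcon
    apply QY_not_summable Y
    refine summable_of_sum_le (c := L + ∑ p ∈ range (P0 + 1), 1 / (p : ℝ))
      (fun p => by positivity) fun u => ?_
    set U : Finset ℕ := u.map (Function.Embedding.subtype _) with hU
    have e : ∑ p ∈ u, 1 / ((p : ℕ) : ℝ) = ∑ p ∈ U, 1 / (p : ℝ) := by
      rw [hU, sum_map]
      rfl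
    rw [e, ← sum_filter_add_sum_filter_not U (fun p => P0 < p)]
    refine add_le_add ?_ ?_
    · refine (hcon (U.filter fun p => P0 < p) ?_).le
      intro p hp
      rw [mem_filter, hU, mem_map] at hp
      obtain ⟨⟨q, _, rfl⟩, h2⟩ := hp
      exact ⟨q.2, h2⟩
    · refine sum_le_sum_of_subset_of_nonneg ?_ fun p _ _ => by positivity
      intro p hp
      rw [mem_filter] at hp
      rw [mem_range]
      omega
  obtain ⟨S, hS, hSL⟩ := hbig
  -- a minimal subset
  obtain ⟨P, hP, hmin⟩ := exists_min_image (S.powerset.filter fun P : Finset ℕ => L ≤ ∑ p ∈ P, 1 / (p : ℝ))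
    card ⟨S, mem_filter.2 ⟨mem_powerset.2 subset_rfl, hSL⟩⟩
  rw [mem_filter, mem_powerset] at hP
  refine ⟨P, fun p hp => hS p (hP.1 hp), hP.2, ?_⟩
  rcases P.eq_empty_or_nonempty with rfl | ⟨q, hq⟩
  · rw [sum_empty]
    linarith
  · have h1 : ∑ p ∈ P.erase q, 1 / (p : ℝ) < L := by
      by_contra h
      push Not at h
      have h2 := hmin (P.erase q) (by
        rw [mem_filter, mem_powerset]
        exact ⟨(erase_subset _ _).trans hP.1, h⟩)
      have h3 := card_erase_lt_of_mem hq
      omega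
    rw [← add_sum_erase _ _ hq]
    have h4 : 1 / (q : ℝ) ≤ 1 := by
      rcases Nat.eq_zero_or_pos q with h | h
      · rw [h]
        norm_num
      · rw [div_le_one (by exact_mod_cast h)]
        exact_mod_cast h
    linarith

end Pool.Agent.helper62.PW
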