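import Mathlib
import Pool.Agent.helper62.PW.Cover
import Pool.Agent.helper62.PW.Crt
import Pool.Agent.helper62.PW.Ana
import Pool.Agent.helper62.PW.Split

set_option autoImplicit false

/-!
# PW-Main: assembly
-/

namespace Pool.Agent.helper62.PW

open Finset Filter Topology

theorem prod_wt_nonneg (t : Fin 3 → Core) : 0 ≤ ∏ i, wt (t i) :=
  prod_nonneg fun i _ => (wt_pos (t i)).le

/-- the primes can be chosen such that the weighted sum of the products of the local factors is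
small -/
theorem exists_good {e : ℝ} (he : 0 < e) : ∃ P : Finset ℕ, (∀ p ∈ P, p.Prime ∧ p % 3 = 1) ∧
    Summable (fun t : Fin 3 → Core => (∏ i, wt (t i)) * ∏ p ∈ P, dl p t) ∧
    ∑' t : Fin 3 → Core, (∏ i, wt (t i)) * ∏ p ∈ P, dl p t ≤ e * ∏ p ∈ P, d0 p := by
  classical
  have hw := hasSum_tr (fun B => (wt_pos B).le) summable_wt
  have hm := hasSum_tr mj_nonneg summable_mj
  set T : ℝ := (∑' B, wt B) ^ 3 with hT
  have hT0 : 0 ≤ T := hw.nonneg prod_wt_nonneg
  -- choice of `L`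
  obtain ⟨L, hL0, hL⟩ : ∃ L : ℝ, 0 ≤ L ∧ Real.exp (-(L / 2)) * T ≤ e / 2 := by
    have h1 : Tendsto (fun L : ℝ => Real.exp (-(L / 2)) * T) atTop (𝓝 (0 * T)) := by
      refine Tendsto.mul_const _ (Real.tendsto_exp_neg_atTop_nhds_zero.comp ?_)
      exact tendsto_id.atTop_div_const (by norm_num)
    rw [zero_mul] at h1
    have h2 := (h1.eventually (ge_mem_nhds (half_pos he))).and (eventually_ge_atTop (0 : ℝ))
    obtain ⟨L, h3, h4⟩ := h2.exists
    exact ⟨L, h4, h3⟩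
  have hE : 0 < Real.exp (38 * (L + 1)) := Real.exp_pos _
  obtain ⟨Y, hY⟩ := exists_not_small mj_nonneg summable_mj
    (δ := e / 2 / Real.exp (38 * (L + 1))) (by positivity)
  obtain ⟨P, hP, h1, h2⟩ := exists_P Y Y hL0
  have hP' : ∀ p ∈ P, p.Prime ∧ p % 3 = 1 := fun p hp => ⟨(hP p hp).1.1, (hP p hp).1.2.1⟩
  have hd0 : 0 < ∏ p ∈ P, d0 p := prod_pos fun p hp => d0_pos (hP' p hp).1
  set g : (Fin 3 → Core) → ℝ := fun t => if ∀ i, SmallC Y (t i) then 0 else ∏ i, mj (t i) with hg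
  have hm0 : ∀ t : Fin 3 → Core, 0 ≤ ∏ i, mj (t i) := fun t => prod_nonneg fun i _ => mj_nonneg _
  have hg0 : ∀ t, 0 ≤ g t := by
    intro t
    simp only [hg]
    split_ifs
    · exact le_rfl
    · exact hm0 t
  have hgs : Summable g := by
    refine Summable.of_nonneg_of_le hg0 (fun t => ?_) hm.summable
    simp only [hg]
    split_ifs
    · exact hm0 t
    · exact le_rfl
  have hterm : ∀ t : Fin 3 → Core, (∏ i, wt (t i)) * ∏ p ∈ P, dl p t ≤
      (∏ p ∈ P, d0 p) * (Real.exp (-(L / 2)) * ∏ i, wt (t i)) +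
        (∏ p ∈ P, d0 p) * (Real.exp (38 * (L + 1)) * g t) := by
    intro t
    by_cases ht : ∀ i, SmallC Y (t i)
    · have h3 := prod_small hP h1 ht
      have h4 : 0 ≤ (∏ p ∈ P, d0 p) * (Real.exp (38 * (L + 1)) * g t) :=
        mul_nonneg hd0.le (mul_nonneg hE.le (hg0 t))
      linarith
    · have h3 := prod_gen hP h2 t
      have h4 : 0 ≤ (∏ p ∈ P, d0 p) * (Real.exp (-(L / 2)) * ∏ i, wt (t i)) :=
        mul_nonneg hd0.le (mul_nonneg (Real.exp_pos _).le (prod_wt_nonneg t))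
      have h5 : g t = ∏ i, mj (t i) := by
        simp only [hg]
        rw [if_neg ht]
      rw [h5]
      linarith
  have hs1 : Summable (fun t : Fin 3 → Core =>
      (∏ p ∈ P, d0 p) * (Real.exp (-(L / 2)) * ∏ i, wt (t i))) :=
    (hw.summable.mul_left _).mul_left _
  have hs2 : Summable (fun t : Fin 3 → Core =>
      (∏ p ∈ P, d0 p) * (Real.exp (38 * (L + 1)) * g t)) := (hgs.mul_left _).mul_left _
  have hnn : ∀ t : Fin 3 → Core, 0 ≤ (∏ i, wt (t i)) * ∏ p ∈ P, dl p t := fun t =>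
    mul_nonneg (prod_wt_nonneg t) (prod_nonneg fun p _ => dl_nonneg p t)
  have hsum := Summable.of_nonneg_of_le hnn hterm (hs1.add hs2)
  refine ⟨P, hP', hsum, ?_⟩
  refine (hsum.tsum_le_tsum hterm (hs1.add hs2)).trans ?_
  rw [hs1.tsum_add hs2, tsum_mul_left, tsum_mul_left, tsum_mul_left, tsum_mul_left, hw.tsum_eq]
  have h6 : Real.exp (38 * (L + 1)) * ∑' t, g t ≤ e / 2 := by
    have := mul_le_mul_of_nonneg_left hY hE.le
    rwa [mul_div_cancel₀ _ hE.ne'] at this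
  have h7 := mul_le_mul_of_nonneg_left hL hd0.le
  have h8 := mul_le_mul_of_nonneg_left h6 hd0.le
  linarith

theorem loc_le {M : ℕ} (hM : 0 < M) (n : ℕ) (t : Fin 3 → Core) :
    (loc M n t : ℝ) / (M : ℝ) ^ 3 ≤ 1 := by
  have : NeZero M := ⟨hM.ne'⟩
  have h1 : loc M n t ≤ M ^ 3 := by
    have h2 : loc M n t ≤ Nat.card (Fin 3 → ZMod M) := Nat.card_le_card_of_injective _
      Subtype.val_injective
    rwa [Nat.card_eq_fintype_card, Fintype.card_fun, ZMod.card, Fintype.card_fin] at h2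
  rw [div_le_one (by positivity)]
  exact_mod_cast h1

theorem main {e : ℝ} (he : 0 < e) : ∃ M a : ℕ, 0 < M ∧ a < M ∧ ∀ᶠ N : ℕ in atTop,
    ({m : ℕ | m < N ∧ m % M = a ∧ m ∈ SumPf 3}.ncard : ℝ) ≤ e * (N / M) := by
  obtain ⟨P, hP, hsum, hle⟩ := exists_good (half_pos he)
  have hM := MP_pos (P := P) fun p hp => (hP p hp).1
  have hM' : (0 : ℝ) < MP P := by exact_mod_cast hM
  have hd0 : 0 < ∏ p ∈ P, d0 p := prod_pos fun p hp => d0_pos (hP p hp).1
  have hcard := card_Om hP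
  have hcard0 : (0 : ℝ) < (Om P).card := by rw [hcard]; exact mul_pos hM' hd0
  have hw := hasSum_tr (fun B => (wt_pos B).le) summable_wt
  set Λ : ℕ → ℝ := fun n => ∑' t : Fin 3 → Core,
    (∏ i, wt (t i)) * ((loc (MP P) n t : ℝ) / (MP P : ℝ) ^ 3) with hΛ
  have hs : ∀ n, Summable (fun t : Fin 3 → Core =>
      (∏ i, wt (t i)) * ((loc (MP P) n t : ℝ) / (MP P : ℝ) ^ 3)) := by
    intro n
    refine Summable.of_nonneg_of_le (fun t => mul_nonneg (prod_wt_nonneg t) (by positivity))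
      (fun t => ?_) hw.summable
    exact mul_le_of_le_one_right (prod_wt_nonneg t) (loc_le hM n t)
  have h1 : ∑ n ∈ Om P, Λ n ≤ ∑ n ∈ Om P, e / 2 / (MP P : ℝ) := by
    simp only [hΛ]
    rw [← Summable.tsum_finsetSum fun n _ => hs n]
    have h2 : ∀ t : Fin 3 → Core, ∑ n ∈ Om P,
        (∏ i, wt (t i)) * ((loc (MP P) n t : ℝ) / (MP P : ℝ) ^ 3) =
        (∏ i, wt (t i)) * ∏ p ∈ P, dl p t := by
      intro t
      rw [← mul_sum, sum_loc hP]
    rw [tsum_congr h2, sum_const, nsmul_eq_mul, hcard]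
    refine hle.trans (le_of_eq ?_)
    field_simp
  have hne : (Om P).Nonempty := by
    rw [← card_pos]
    exact_mod_cast hcard0
  obtain ⟨n, hn, hn'⟩ := exists_le_of_sum_le hne h1
  have hnM : n < MP P := by
    classical
    unfold Om at hn
    exact mem_range.1 (mem_filter.1 hn).1
  refine ⟨MP P, n, hM, hnM, ?_⟩
  filter_upwards [limit hM hnM (e := e / 2 / (MP P : ℝ)) (by positivity)] with N hN
  refine hN.trans ?_
  have h3 : Λ n + e / 2 / (MP P : ℝ) ≤ e / (MP P : ℝ) := by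
    have : e / (MP P : ℝ) = e / 2 / (MP P : ℝ) + e / 2 / (MP P : ℝ) := by field_simp; ring
    rw [this]
    linarith
  calc (Λ n + e / 2 / (MP P : ℝ)) * N ≤ e / (MP P : ℝ) * N :=
        mul_le_mul_of_nonneg_right h3 (Nat.cast_nonneg _)
    _ = e * (N / MP P) := by ring

end Pool.Agent.helper62.PW
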